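import Pool.Agent.Lib.MP_9dcf40_lc.SU.Spec

/-!
# The lower bound for inputs with a common straight-line program

The proof is the one of `BP.alower` (`BP/AMain.lean`), with the straight-line program of the
butterfly.
-/

namespace Pool.Agent.Lib.MP_9dcf40_lc.SU

open TT Finset Pool.Agent.Lib.BP

open Classical in
theorem tALow (h : S_Ord) : S_ALow := by
  intro α _ s t hst c τ hτ hτc hα
  have hc : 1 ≤ c := hτ.trans hτc
  -- the parameter `b`
  set b := Nat.clog 2 (8 * c) with hb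
  have hn : 8 * c ≤ 2 ^ b := Nat.le_pow_clog (by norm_num) _
  have hb1 : 1 ≤ b := by
    rcases Nat.eq_zero_or_pos b with h | h
    · rw [h] at hn
      omega
    · exact h
  have hp : 2 ^ (b - 1) < 8 * c := Nat.pow_pred_clog_lt_self (by norm_num) (by omega)
  have hb2 : 2 ^ b ≤ 16 * c := by
    have : 2 ^ b = 2 * 2 ^ (b - 1) := by
      rw [← pow_succ']
      congr 1
      omega
    omega
  have hb3 : b ≤ Nat.log 2 c + 4 := by
    have h1 : c < 2 ^ (Nat.log 2 c + 1) := Nat.lt_pow_succ_log_self (by norm_num) c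
    have h2 : 2 ^ (b - 1) < 2 ^ (Nat.log 2 c + 4) := by
      calc 2 ^ (b - 1) < 8 * c := hp
        _ ≤ 8 * 2 ^ (Nat.log 2 c + 1) := by omega
        _ = 2 ^ (Nat.log 2 c + 4) := by rw [pow_succ, pow_add]; ring
    have := (Nat.pow_lt_pow_iff_right (by norm_num : 1 < 2)).1 h2
    omega
  -- the names
  set κ := 6144 * b with hκdef
  have hκ : 1 ≤ κ := by omega
  have hcardE : Fintype.card (Option (Nd b ((τ + 1) * b) × Fin (κ ^ 2))) ≤
      Fintype.card α := by
    refine le_trans ?_ hα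
    rw [Fintype.card_option, Fintype.card_prod, Fintype.card_prod, Fintype.card_fin,
      Fintype.card_fin]
    have hX : Fintype.card (Pos b) = 2 ^ b := by simp
    rw [hX]
    have h1 : (τ + 1) * b + 1 ≤ 3 * (τ * b) := by nlinarith
    have h2 : ((τ + 1) * b + 1) * 2 ^ b * κ ^ 2 ≤ 3 * (τ * b) * (16 * c) * κ ^ 2 :=
      Nat.mul_le_mul_right _ (Nat.mul_le_mul h1 hb2)
    have h3 : 3 * (τ * b) * (16 * c) * κ ^ 2 = 1811939328 * (c * τ * b ^ 3) := by
      rw [hκdef]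
      ring
    have h4 : c * τ * b ^ 3 ≤ c * τ * (Nat.log 2 c + 4) ^ 3 :=
      Nat.mul_le_mul_left _ (Nat.pow_le_pow_left hb3 3)
    have h5 : 1 ≤ c * τ * (Nat.log 2 c + 4) ^ 3 :=
      Nat.succ_le_of_lt (Nat.mul_pos (Nat.mul_pos hc hτ) (pow_pos (by omega) 3))
    omega
  have : NeZero (κ ^ 2) := ⟨by positivity⟩
  obtain ⟨nm, hnm, hnm1, hnm2⟩ := exists_names hcardE
    (e₁ := none) (e₂ := some (root b τ, (0 : Fin (κ ^ 2)))) (by simp) hst
  set G := flyDag b ((τ + 1) * b) nm hnm with hGdef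
  have hGs : G.nm none = s := hnm1
  have hname : ∀ a : Nd b ((τ + 1) * b) → Fin (κ ^ 2), a (root b τ) = 0 →
      G.name a (some (root b τ)) = t := by
    intro a ha
    show nm (some (root b τ, a (root b τ))) = t
    rw [ha, hnm2]
  obtain ⟨sl, hsl⟩ := h α (Fin (κ ^ 2)) b ((τ + 1) * b) nm hnm
  obtain ⟨N₀, hN₀, hrun⟩ := hsl (root b τ)
  have hN₁ : N₀ ≤ 48 * (c * τ * (Nat.log 2 c + 4)) := by
    have h1 : (τ + 1) * b + 1 ≤ 3 * (τ * b) := by nlinarith
    have h2 : ((τ + 1) * b + 1) * 2 ^ b ≤ 3 * (τ * b) * (16 * c) := Nat.mul_le_mul h1 hb2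
    have h3 : 3 * (τ * b) * (16 * c) = 48 * (c * τ * b) := by ring
    have h4 : c * τ * b ≤ c * τ * (Nat.log 2 c + 4) := Nat.mul_le_mul_left _ hb3
    omega
  refine ⟨N₀, sl, {a : Nd b ((τ + 1) * b) → Fin (κ ^ 2) // a (root b τ) = 0}, inferInstance,
    fun a => G.inp a.1, hN₁, ⟨⟨fun _ => 0, rfl⟩⟩, ?_, ?_⟩
  · rintro ⟨a, ha⟩
    have h1 : run sl (nm none) (G.inp a) N₀ = G.name a (some (root b τ)) := hrun a
    rw [hname a ha, hnm1] at h1
    exact h1
  intro P r hr hS hG hfrac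
  let _ := P.fin
  show 2 ^ c ≤ Fintype.card P.Q
  by_contra hlt
  push Not at hlt
  set Y : Finset (Nd b ((τ + 1) * b) → Fin (κ ^ 2)) :=
    univ.filter fun a => a (root b τ) = 0 ∧ ∃ l, ∃ q ∈ P.acc,
      P.Comp (G.inp a) P.start l q ∧ (l.length < 2 ^ τ ∨ τ = c) with hYdef
  have hcr : ∀ a : Nd b ((τ + 1) * b) → Fin (κ ^ 2), ∃ T d, a ∈ Y →
      T.card ≤ r ∧ ACrit G P c τ a T d := by
    intro a
    by_cases ha : a ∈ Y
    · obtain ⟨_, ha, l, q, hq, hl, hll⟩ := mem_filter.1 ha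
      obtain ⟨l', hl', hll'⟩ : ∃ l', P.Comp (G.inp a) P.start l' q ∧ l'.length < 2 ^ τ := by
        rcases hll with h | h
        · exact ⟨l, hl, h⟩
        · obtain ⟨l', h1, h2⟩ := hl.nodup
          exact ⟨l', h1, h2.length_le_card.trans_lt (h ▸ hlt)⟩
      obtain ⟨T, d, hd⟩ := exists_acrit hc hn hnm (P := P) (r := r) a (by
        show Sound P (G.nm none) (G.name a (some (root b τ)))
        rw [hGs, hname a ha]
        exact hS) (by
        show AlmostGen P (G.nm none) r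
        rw [hGs]
        exact hG) hq hl' hll'
      exact ⟨T, d, fun _ => hd⟩
    · exact ⟨∅, (P.start, P.start, ∅), fun h => absurd h ha⟩
  choose T d hd using hcr
  set F : Finset (Finset (Nd b ((τ + 1) * b))) :=
    (range τ).biUnion fun j => powersetCard c (bandSet b ((τ + 1) * b) j) with hF
  have hFC : ∀ C ∈ F, C.card = c ∧ root b τ ∉ C := by
    intro C hC
    rw [hF, mem_biUnion] at hC
    obtain ⟨j, hj, hC⟩ := hC
    rw [mem_powersetCard] at hC
    refine ⟨hC.2, fun hr => ?_⟩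
    have h1 := (mem_filter.1 (hC.1 hr)).2.2
    have h2 : ((root b τ).1 : ℕ) = (τ + 1) * b := nd_val le_rfl _
    have h3 : (j + 1) * b ≤ τ * b := Nat.mul_le_mul_right _ (mem_range.1 hj)
    have h4 : (j + 1) * b = j * b + b := by ring
    have h5 : (τ + 1) * b = τ * b + b := by ring
    omega
  have hYbig : Nat.card {a : Nd b ((τ + 1) * b) → Fin (κ ^ 2) // a (root b τ) = 0} ≤
      2 ^ c * Y.card := by
    have h2 : Nat.card {i : {a : Nd b ((τ + 1) * b) → Fin (κ ^ 2) // a (root b τ) = 0} //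
        ∃ l, ∃ q ∈ P.acc, P.Comp (G.inp i.1) P.start l q ∧ (l.length < 2 ^ τ ∨ τ = c)} =
          Y.card := by
      rw [Nat.card_eq_fintype_card,
        Fintype.card_congr (Equiv.subtypeSubtypeEquivSubtypeInter _
          (fun a => ∃ l, ∃ q ∈ P.acc, P.Comp (G.inp a) P.start l q ∧
            (l.length < 2 ^ τ ∨ τ = c))), Fintype.card_subtype]
    rw [← h2, Nat.card_eq_fintype_card]
    exact hfrac
  -- the forbidden names
  let N : (Nd b ((τ + 1) * b) → Fin (κ ^ 2)) →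
      Finset (Nd b ((τ + 1) * b) × Fin (κ ^ 2)) := fun a =>
    univ.filter fun e => nm (some e) ∈ T a
  have hN : ∀ a ∈ Y, (N a).card ≤ r := by
    intro a ha
    refine le_trans (card_le_card_of_injOn (fun e => nm (some e)) ?_ ?_) (hd a ha).1
    · intro e he
      exact mem_coe.2 (mem_filter.1 (mem_coe.1 he)).2
    · intro e _ e' _ h
      exact Option.some.inj (hnm h)
  have hclean : ∀ a a' : Nd b ((τ + 1) * b) → Fin (κ ^ 2),
      (∀ e ∈ N a, a e.1 ≠ a' e.1 → e.2 ≠ a' e.1) → G.Clean a a' (T a) := by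
    intro a a' h e he u hu h1
    have h2 : nm (some (u, a' u)) ∈ T a := by
      rw [h1] at he
      exact he
    exact h (u, a' u) (mem_filter.2 ⟨mem_univ _, h2⟩) hu rfl
  have hcount := count2 (root b τ) (0 : Fin (κ ^ 2)) c r r (2 ^ c) F hFC Y
    (fun a ha => (mem_filter.1 ha).2.1) hYbig d
    (by
      intro a ha
      obtain ⟨_, _, _, _, _, _, _, _, _, hcc, ⟨j, hj, hjb⟩, _⟩ := hd a ha
      rw [hF, mem_biUnion]
      exact ⟨j, mem_range.2 hj, mem_powersetCard.2 ⟨fun u hu =>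
        mem_filter.2 ⟨mem_univ _, hjb u hu⟩, hcc⟩⟩) N hN
    (by
      intro a ha a' ha' hdd hv h1 h2
      exact acrit_diff (G := G) (by rw [hGs]; exact hG) (hd a ha).2 (hdd ▸ (hd a' ha').2) hv
        (hclean a a' h1) (hclean a' a h2))
  -- numbers
  rw [Fintype.card_fin] at hcount
  have hFcard : F.card ≤ 2 ^ c * (48 * b) ^ c := by
    have h1 : F.card ≤ τ * (b * 2 ^ b).choose c := by
      rw [hF]
      refine card_biUnion_le.trans ?_
      refine (sum_le_sum fun j _ => ?_ : _ ≤ ∑ _j ∈ range τ, (b * 2 ^ b).choose c).trans ?_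
      · rw [card_powersetCard]
        exact Nat.choose_le_choose _ (bandSet_card _ _ _)
      · rw [sum_const, card_range, smul_eq_mul]
    have h2 : (b * 2 ^ b).choose c ≤ (3 * (16 * b)) ^ c := by
      refine choose_le _ _ _ ?_
      calc b * 2 ^ b ≤ b * (16 * c) := Nat.mul_le_mul_left _ hb2
        _ = 16 * b * c := by ring
    have e : 3 * (16 * b) = 48 * b := by ring
    rw [e] at h2
    exact h1.trans (Nat.mul_le_mul (hτc.trans (Nat.lt_two_pow_self).le) h2)
  have h4 : Fintype.card P.Q ^ 2 < 4 ^ c := by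
    calc Fintype.card P.Q ^ 2 < (2 ^ c) ^ 2 := Nat.pow_lt_pow_left hlt (by norm_num)
      _ = 4 ^ c := by rw [← pow_mul, mul_comm, pow_mul]; norm_num
  have hpos : 0 < 2 ^ c * (48 * b) ^ c := by positivity
  have h6 : Fintype.card P.Q ^ 2 * F.card < 4 ^ c * (2 ^ c * (48 * b) ^ c) :=
    lt_of_le_of_lt (Nat.mul_le_mul_left _ hFcard) (Nat.mul_lt_mul_of_pos_right h4 hpos)
  have h7 : 2 ^ c * (2 ^ (c + r) * (2 ^ c * (κ ^ 2) ^ r)) ≤
      2 ^ c * (4 ^ c * (2 ^ c * κ ^ c)) := by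
    have e1 : 2 ^ (c + r) ≤ 4 ^ c := by
      calc 2 ^ (c + r) ≤ 2 ^ (2 * c) := Nat.pow_le_pow_right (by norm_num) (by omega)
        _ = 4 ^ c := by rw [pow_mul]; norm_num
    have e2 : (κ ^ 2) ^ r ≤ κ ^ c := by
      rw [← pow_mul]
      exact Nat.pow_le_pow_right hκ (by omega)
    exact Nat.mul_le_mul_left _ (Nat.mul_le_mul e1 (Nat.mul_le_mul_left _ e2))
  have h8 : (κ ^ 2) ^ c = 2 ^ c * (4 ^ c * (2 ^ c * κ ^ c)) *
      (4 ^ c * (2 ^ c * (48 * b) ^ c)) := by
    rw [← mul_pow, ← mul_pow, ← mul_pow, ← mul_pow, ← mul_pow, ← mul_pow]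
    congr 1
    rw [hκdef]
    ring
  rw [h8] at hcount
  have h9 := Nat.mul_lt_mul_of_le_of_lt h7 h6 (by positivity)
  omega

end Pool.Agent.Lib.MP_9dcf40_lc.SU
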