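import Pool.Agent.Lib.MP_9dcf40_lc.SU.Spec

/-! # Adding and subtracting the contributions -/

set_option autoImplicit false

namespace Pool.Agent.Lib.MP_9dcf40_lc.SU

open TT Finset Pool.Agent.Lib.BP

namespace Arith

variable {X : Type} (sl : ℕ → ℕ × ℕ) (b j : ℕ) (nm : X → ℕ)

open Classical in
/-- The contributions of the blocks `i < m`. -/
noncomputable def part (e : ℕ → X) (m : ℕ) (p : Fin b × Bool) : ℕ :=
  if Ext sl b j p ∧ (ch sl b j p.1 p.2 - 1) / b < m then nm (e (ch sl b j p.1 p.2)) else 0

theorem part_zero (e : ℕ → X) (p : Fin b × Bool) : part sl b j nm e 0 p = 0 := by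
  rw [part, if_neg]
  rintro ⟨-, h⟩
  exact absurd h (Nat.not_lt_zero _)

theorem part_last (e : ℕ → X) (p : Fin b × Bool) : part sl b j nm e j p = xs sl b j nm e p := by
  rw [part, xs]
  by_cases h : Ext sl b j p
  · rw [if_pos, if_pos h]
    refine ⟨h, Nat.div_lt_of_lt_mul ?_⟩
    have h1 := h.1
    have h2 := h.2
    rw [mul_comm] at h2
    omega
  · rw [if_neg, if_neg h]
    exact fun h1 => h h1.1

theorem part_succ (e : ℕ → X) (m : ℕ) (p : Fin b × Bool) :
    part sl b j nm e (m + 1) p =
      part sl b j nm e m p + ctr sl b j nm m (fun v => e (m * b + v + 1)) p := by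
  rw [part, part, ctr]
  by_cases h : Ext sl b j p
  · rcases lt_trichotomy ((ch sl b j p.1 p.2 - 1) / b) m with h1 | h1 | h1
    · rw [if_pos ⟨h, by omega⟩, if_pos ⟨h, h1⟩, if_neg, add_zero]
      rintro ⟨-, h2⟩
      omega
    · rw [if_pos ⟨h, by omega⟩, if_neg, if_pos ⟨h, h1⟩, zero_add]
      · have h2 := Nat.div_add_mod (ch sl b j p.1 p.2 - 1) b
        rw [h1] at h2
        have h3 := h.1
        have h4 : m * b + (ch sl b j p.1 p.2 - 1) % b + 1 = ch sl b j p.1 p.2 := by
          rw [mul_comm m b]
          omega
        simp only
        rw [h4]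
      · rintro ⟨-, h2⟩
        omega
    · rw [if_neg, if_neg, if_neg]
      · rintro ⟨-, h2⟩
        omega
      · rintro ⟨-, h2⟩
        omega
      · rintro ⟨-, h2⟩
        omega
  · rw [if_neg, if_neg, if_neg]
    · rintro ⟨h2, -⟩
      exact h h2
    · rintro ⟨h2, -⟩
      exact h h2
    · rintro ⟨h2, -⟩
      exact h h2

theorem sbt_iff (Q i : ℕ) (y : Fin b → X) (r r' : Reg b Q) :
    sbt sl b j nm Q i y r = some r' ↔ ∀ p, (r p : ℕ) = r' p + 2 * ctr sl b j nm i y p := by
  rw [sbt]
  split_ifs with h
  · rw [Option.some.injEq]
    constructor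
    · rintro rfl p
      have h1 := h p
      simp only
      omega
    · intro h1
      funext p
      apply Fin.ext
      have h2 := h1 p
      simp only
      omega
  · constructor
    · intro h1
      simp at h1
    · intro h1
      exfalso
      apply h
      intro p
      have h2 := h1 p
      omega

end Arith

open Arith in
theorem tAdd : S_Add := by
  intro X sl b j Q K nm hnm e r hr
  have key : ∀ m, ∃ r' : Reg b Q,
      cmp (fun i => add sl b j nm Q i (fun v => e (i * b + v + 1))) m r = some r' ∧
      ∀ p, (r' p : ℕ) = r p + part sl b j nm e m p := by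
    intro m
    induction m with
    | zero => exact ⟨r, rfl, fun p => by rw [part_zero, add_zero]⟩
    | succ m ih =>
      obtain ⟨r1, h1, h2⟩ := ih
      have hlt : ∀ p, (r1 p : ℕ) + ctr sl b j nm m (fun v => e (m * b + v + 1)) p < Q := by
        intro p
        rw [h2 p, add_assoc, ← part_succ, part]
        have h3 := hr p
        have h4 := (r p).2
        split_ifs with h5
        · have h6 := hnm (e (ch sl b j p.1 p.2))
          omega
        · omega
      refine ⟨fun p => ⟨(r1 p : ℕ) + ctr sl b j nm m (fun v => e (m * b + v + 1)) p, hlt p⟩,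
        ?_, ?_⟩
      · rw [cmp]
        simp only
        rw [h1, Option.bind_some, add, dif_pos hlt]
      · intro p
        simp only
        rw [h2 p, part_succ, add_assoc]
  obtain ⟨r', h1, h2⟩ := key j
  exact ⟨r', h1, fun p => by rw [h2 p, part_last]⟩

open Arith in
theorem tSbt : S_Sbt := by
  intro X sl b j Q nm e r r'
  have key : ∀ m, ∀ r' : Reg b Q,
      cmp (fun i => sbt sl b j nm Q i (fun v => e (i * b + v + 1))) m r = some r' ↔
      ∀ p, (r p : ℕ) = r' p + 2 * part sl b j nm e m p := by
    intro m
    induction m with
    | zero =>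
      intro r'
      rw [cmp, Option.some.injEq]
      constructor
      · rintro rfl p
        rw [part_zero]
        omega
      · intro h
        funext p
        apply Fin.ext
        have h1 := h p
        rw [part_zero] at h1
        omega
    | succ m ih =>
      intro r'
      rw [cmp]
      simp only
      rw [Option.bind_eq_some_iff]
      constructor
      · rintro ⟨r1, h1, h2⟩ p
        have h3 := (ih r1).mp h1 p
        have h4 := (sbt_iff sl b j nm Q m _ r1 r').mp h2 p
        rw [part_succ]
        omega
      · intro h
        have hlt : ∀ p, (r' p : ℕ) + 2 * ctr sl b j nm m (fun v => e (m * b + v + 1)) p < Q := by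
          intro p
          have h1 := h p
          rw [part_succ] at h1
          have h2 := (r p).2
          omega
        refine ⟨fun p => ⟨(r' p : ℕ) + 2 * ctr sl b j nm m (fun v => e (m * b + v + 1)) p,
          hlt p⟩, ?_, ?_⟩
        · rw [ih]
          intro p
          have h1 := h p
          rw [part_succ] at h1
          simp only
          omega
        · rw [sbt_iff]
          intro p
          rfl
  rw [key j r']
  constructor
  · intro h p
    rw [← part_last]
    exact h p
  · intro h p
    rw [part_last]
    exact h p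

end Pool.Agent.Lib.MP_9dcf40_lc.SU
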