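import Pool.Agent.Lib.MP_9dcf40_lc.SU.Spec

/-!
# BTRUE: true pointers give true elements
-/

namespace Pool.Agent.Lib.MP_9dcf40_lc.SU

open TT Finset Pool.Agent.Lib.BP

namespace BTrue

variable {X : Type}

/-- The second part follows from the first one. -/
theorem second (sl : ℕ → ℕ × ℕ) (s : X) (b j : ℕ) (x : Fin b × Bool → X) (g : X × X → X)
    (hx : ∀ p, Ext sl b j p → x p = run sl s g (ch sl b j p.1 p.2)) (m : ℕ) (y : Fin b → X)
    (hy : ∀ v : Fin b, (v : ℕ) < m → y v = run sl s g (j * b + v + 1)) (v : Fin b) (d : Bool)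
    (hv : (v : ℕ) = m) : pn sl b j s x y v d = run sl s g (ch sl b j v d) := by
  have hle : ch sl b j v d ≤ j * b + v := min_le_right _ _
  unfold pn
  by_cases h0 : ch sl b j v d = 0
  · rw [if_pos h0, h0, run_zero]
  rw [if_neg h0]
  by_cases h1 : ch sl b j v d ≤ j * b
  · rw [if_pos h1]
    exact hx (v, d) ⟨Nat.one_le_iff_ne_zero.2 h0, h1⟩
  · rw [if_neg h1]
    have h2 : ch sl b j v d - j * b - 1 < b := by
      have := v.2
      omega
    rw [dif_pos h2, hy ⟨_, h2⟩ (by
      change ch sl b j v d - j * b - 1 < m
      omega)]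
    congr 1
    change j * b + (ch sl b j v d - j * b - 1) + 1 = ch sl b j v d
    omega

end BTrue

theorem tBTrue : S_BTrue := by
  intro X sl s b j x g hx m
  have key : ∀ m, ∀ v : Fin b, (v : ℕ) < m → bst sl b j s x g m v = run sl s g (j * b + v + 1) := by
    intro m
    induction m with
    | zero => intro v hv; exact absurd hv (Nat.not_lt_zero _)
    | succ m ih =>
      intro v hv
      change (if (v : ℕ) = m then
        g (pn sl b j s x (bst sl b j s x g m) v false, pn sl b j s x (bst sl b j s x g m) v true)
        else bst sl b j s x g m v) = _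
      by_cases h : (v : ℕ) = m
      · rw [if_pos h, BTrue.second sl s b j x g hx m _ ih v false h,
          BTrue.second sl s b j x g hx m _ ih v true h, run_succ]
        rfl
      · rw [if_neg h]
        exact ih v (by omega)
  exact ⟨key m, fun v d hv => BTrue.second sl s b j x g hx m _ (key m) v d hv⟩

end Pool.Agent.Lib.MP_9dcf40_lc.SU
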