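import Pool.Agent.Lib.MP_9dcf40_lc.SU.Spec

/-!
# MP_9dcf40_lc, SU: the fragment which evaluates a block
-/

set_option autoImplicit false

namespace Pool.Agent.Lib.MP_9dcf40_lc.SU

open TT Finset Pool.Agent.Lib.BP

namespace Blk

/-- The fragment which evaluates the first `m` steps of a block. -/
theorem part (h1 : S_Idf) (h2 : S_Que) (h3 : S_Seq) (h4 : S_BTrue) (X : Type) [Fintype X]
    (sl : ℕ → ℕ × ℕ) (s : X) (b j : ℕ) (U : Type) [Fintype U] (x : U → Fin b × Bool → X) :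
    ∀ m ≤ b, ∃ G : Frag (X × X) X U (U × (Fin b → X)),
      G.size ≤ Fintype.card U + (2 * m + 1) * (Fintype.card U * Fintype.card X ^ b) ∧
      ∀ g u e, (G.Reach g u e ↔ e = (u, bst sl b j s (x u) g m)) ∧
        ((∀ p, Ext sl b j p → x u p = run sl s g (ch sl b j p.1 p.2)) →
          G.Ok g (Tru sl s g) u e) := by
  have hcard : Fintype.card (U × (Fin b → X)) = Fintype.card U * Fintype.card X ^ b := by
    rw [Fintype.card_prod, Fintype.card_fun, Fintype.card_fin]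
  intro m
  induction m with
  | zero =>
    intro _
    obtain ⟨G₁, hs₁, hG₁⟩ := h1 (X × X) X U
    obtain ⟨G₂, hs₂, hG₂⟩ := h1 (X × X) X (U × (Fin b → X))
    obtain ⟨G, hs, hG⟩ := h3 (X × X) X U U (U × (Fin b → X)) (U × (Fin b → X)) G₁ G₂
      (fun u' e' => e' = (u', fun _ => s))
    refine ⟨G, ?_, fun g u e => ⟨?_, fun _ => ?_⟩⟩
    · rw [hs, hs₁, hs₂, hcard]
      omega
    · rw [(hG g u e).1]
      constructor
      · rintro ⟨v₁, v₂, e1, e2, e3⟩
        rw [(hG₁ g u v₁).1] at e1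
        rw [(hG₂ g v₂ e).1] at e3
        rw [e3, e2, e1]
        rfl
      · intro he
        refine ⟨u, e, (hG₁ g u u).1.2 rfl, he, (hG₂ g e e).1.2 rfl⟩
    · exact (hG g u e).2 _ fun v₁ v₂ _ _ _ => ⟨(hG₁ g u v₁).2 _, (hG₂ g v₂ e).2 _⟩
  | succ m ih =>
    intro hm
    obtain ⟨G₁, hs₁, hG₁⟩ := ih (by omega)
    obtain ⟨G₂, hs₂, hG₂⟩ := h2 (X × X) X (U × (Fin b → X)) (U × (Fin b → X))
      (fun t => (pn sl b j s (x t.1) t.2 ⟨m, hm⟩ false, pn sl b j s (x t.1) t.2 ⟨m, hm⟩ true))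
      (fun t z => some (t.1, fun v => if (v : ℕ) = m then z else t.2 v))
    obtain ⟨G, hs, hG⟩ := h3 (X × X) X U (U × (Fin b → X)) (U × (Fin b → X))
      (U × (Fin b → X)) G₁ G₂ (fun e e' => e' = e)
    have hstep : ∀ (g : X × X → X) (u : U),
        (fun v : Fin b => if (v : ℕ) = m then
          g (pn sl b j s (x u) (bst sl b j s (x u) g m) ⟨m, hm⟩ false,
            pn sl b j s (x u) (bst sl b j s (x u) g m) ⟨m, hm⟩ true)
          else bst sl b j s (x u) g m v) = bst sl b j s (x u) g (m + 1) := by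
      intro g u
      funext v
      change _ = (if (v : ℕ) = m then
          g (pn sl b j s (x u) (bst sl b j s (x u) g m) v false,
            pn sl b j s (x u) (bst sl b j s (x u) g m) v true)
          else bst sl b j s (x u) g m v)
      by_cases hv : (v : ℕ) = m
      · have hv' : (⟨m, hm⟩ : Fin b) = v := Fin.ext hv.symm
        rw [if_pos hv, if_pos hv, hv']
      · rw [if_neg hv, if_neg hv]
    refine ⟨G, ?_, fun g u e => ⟨?_, fun hx => ?_⟩⟩
    · rw [hs, hs₂, hcard]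
      have e1 : (2 * (m + 1) + 1) * (Fintype.card U * Fintype.card X ^ b) =
          (2 * m + 1) * (Fintype.card U * Fintype.card X ^ b) +
            (Fintype.card U * Fintype.card X ^ b + Fintype.card U * Fintype.card X ^ b) := by
        ring
      rw [e1]
      linarith
    · rw [(hG g u e).1]
      constructor
      · rintro ⟨v₁, v₂, e1, e2, e3⟩
        rw [(hG₁ g u v₁).1] at e1
        rw [(hG₂ g v₂ e).1, e2, e1] at e3
        rw [← Option.some.inj e3, hstep]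
      · intro he
        refine ⟨(u, bst sl b j s (x u) g m), (u, bst sl b j s (x u) g m),
          (hG₁ g u _).1.2 rfl, rfl, (hG₂ g _ e).1.2 ?_⟩
        rw [he, ← hstep]
    · refine (hG g u e).2 _ fun v₁ v₂ e1 e2 _ => ⟨(hG₁ g u v₁).2 hx, (hG₂ g v₂ e).2 _ ?_⟩
      rw [(hG₁ g u v₁).1] at e1
      rw [e2, e1]
      have hb := (h4 X sl s b j (x u) g hx m).2 ⟨m, hm⟩
      exact ⟨_, _, Prod.ext (hb false rfl) (hb true rfl)⟩

end Blk

open Blk in
theorem tBlk (h1 : S_Idf) (h2 : S_Que) (h3 : S_Seq) (h4 : S_BTrue) : S_Blk := by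
  intro X _ sl s b j U W _ _ x out
  obtain ⟨G₁, hs₁, hG₁⟩ := part h1 h2 h3 h4 X sl s b j U x b le_rfl
  obtain ⟨G₂, hs₂, hG₂⟩ := h1 (X × X) X W
  obtain ⟨G, hs, hG⟩ := h3 (X × X) X U (U × (Fin b → X)) W W G₁ G₂
    (fun e w => out e.1 e.2 = some w)
  refine ⟨G, ?_, fun g u w => ⟨?_, fun hx => ?_⟩⟩
  · have hX : 1 ≤ Fintype.card X ^ b :=
      Nat.one_le_pow _ _ (Fintype.card_pos_iff.2 ⟨s⟩)
    have h5 : Fintype.card U ≤ Fintype.card U * Fintype.card X ^ b :=
      Nat.le_mul_of_pos_right _ hX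
    have e1 : (2 * b + 2) * (Fintype.card U * Fintype.card X ^ b) =
        Fintype.card U * Fintype.card X ^ b +
          (2 * b + 1) * (Fintype.card U * Fintype.card X ^ b) := by
      ring
    rw [hs, hs₂, e1]
    exact Nat.add_le_add_right (hs₁.trans (Nat.add_le_add_right h5 _)) _
  · rw [(hG g u w).1]
    constructor
    · rintro ⟨v₁, v₂, e1, e2, e3⟩
      rw [(hG₁ g u v₁).1] at e1
      rw [(hG₂ g v₂ w).1] at e3
      rw [e1] at e2
      rw [e3]
      exact e2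
    · intro he
      exact ⟨(u, bst sl b j s (x u) g b), w, (hG₁ g u _).1.2 rfl, he, (hG₂ g w w).1.2 rfl⟩
  · exact (hG g u w).2 _ fun v₁ v₂ _ _ _ => ⟨(hG₁ g u v₁).2 hx, (hG₂ g v₂ w).2 _⟩

end Pool.Agent.Lib.MP_9dcf40_lc.SU
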