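import Pool.Agent.Lib.MP_9dcf40_lc.SU.Spec

/-!
# Composition of the calls
-/

set_option autoImplicit false

namespace Pool.Agent.Lib.MP_9dcf40_lc.SU

open TT Finset Pool.Agent.Lib.BP

theorem tChain (h1 : S_Idf) (h2 : S_Seq) : S_Chain := by
  intro X sl s Co F _ _ ψ n j
  induction j with
  | zero =>
    intro _
    obtain ⟨G, hG, h⟩ := h1 (X × X) X (Co × F)
    refine ⟨G, ?_, ?_⟩
    · rw [hG, Fintype.card_prod, sum_range_zero, add_zero]
    · intro g c f c' f'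
      refine ⟨?_, (h g _ _).2 _⟩
      rw [(h g _ _).1, Prod.mk.injEq]
      show c' = c ∧ f' = f ↔ c' = c ∧ some f = some f'
      rw [Option.some.injEq, eq_comm (a := f)]
  | succ j ih =>
    intro H
    obtain ⟨G₁, hs₁, hG₁⟩ := ih fun i hi => H i (by omega)
    obtain ⟨G₂, hs₂, hG₂⟩ := H j (by omega)
    obtain ⟨G, hs, hG⟩ := h2 (X × X) X (Co × F) (Co × F) (Co × F) (Co × F) G₁ G₂ (· = ·)
    refine ⟨G, ?_, ?_⟩
    · rw [hs, sum_range_succ]
      omega
    · intro g c f c' f'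
      constructor
      · rw [(hG g _ _).1]
        constructor
        · rintro ⟨⟨c₁, f₁⟩, v₂, h3, h4, h5⟩
          rw [← h4] at h5
          obtain ⟨hc, h6⟩ := (hG₁ g c f c₁ f₁).1.1 h3
          change cmp (fun i => ψ i g) j f = some f₁ at h6
          obtain ⟨hc', h7⟩ := (hG₂ g c₁ f₁ c' f').1.1 h5
          refine ⟨hc'.trans hc, ?_⟩
          show (cmp (fun i => ψ i g) j f).bind (ψ j g) = some f'
          rw [h6]
          exact h7
        · rintro ⟨hc, h3⟩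
          change (cmp (fun i => ψ i g) j f).bind (ψ j g) = some f' at h3
          rw [Option.bind_eq_some_iff] at h3
          obtain ⟨f₁, h4, h5⟩ := h3
          exact ⟨(c, f₁), (c, f₁), (hG₁ g c f c f₁).1.2 ⟨rfl, h4⟩, rfl,
            (hG₂ g c f₁ c' f').1.2 ⟨hc, h5⟩⟩
      · refine (hG g _ _).2 _ ?_
        rintro ⟨c₁, f₁⟩ ⟨c₂, f₂⟩ _ _ _
        exact ⟨(hG₁ g c f c₁ f₁).2, (hG₂ g c₂ f₂ c' f').2⟩

end Pool.Agent.Lib.MP_9dcf40_lc.SU
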