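import Pool.Agent.Lib.MP_9dcf40_lc.SU.Spec

/-!
Task 17472: assembly of the upper bound.
-/

namespace Pool.Agent.Lib.MP_9dcf40_lc.SU.End

open TT Finset Pool.Agent.Lib.BP

/-- The program with one state and without accepting states. -/
def triv (A B : Type) : NBP A B where
  Q := Unit
  fin := inferInstance
  start := ()
  acc := ∅
  query := fun _ => none
  next := fun _ _ => ∅

theorem size_triv (A B : Type) : (triv A B).size = 1 := rfl

/-- The number of the points of `A`. -/
theorem card_le {P : Type} [Fintype P] (q : ℕ) (A : Finset (P → ℕ)) (hA : ∀ a ∈ A, ∀ p, a p < q) :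
    A.card ≤ q ^ Fintype.card P := by
  classical
  have h1 : A ⊆ Fintype.piFinset fun _ : P => range q := by
    intro a ha
    rw [Fintype.mem_piFinset]
    intro p
    exact mem_range.2 (hA a ha p)
  calc A.card ≤ (Fintype.piFinset fun _ : P => range q).card := card_le_card h1
    _ = q ^ Fintype.card P := by
      rw [Fintype.card_piFinset, prod_const, card_range, card_univ]

/-- The last inequality. -/
theorem fin_le (B E C b j W f a R k : ℕ) (hj : j ≤ b) (hf : f = W) (ha : a ≤ W) (hW : 1 ≤ W)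
    (hR : 2 * ((5 * B + E) * (4 * B + 1) ^ b * W ^ 2) ≤ R) (hC : C = 1) (hk : k ≤
      (5 * B + E) * (4 * B + 1) ^ j * (f * (C + a))) : k ≤ R := by
  subst hf hC
  refine hk.trans (le_trans ?_ hR)
  have h1 : (4 * B + 1) ^ j ≤ (4 * B + 1) ^ b := Nat.pow_le_pow_right (by omega) hj
  have h2 : f * (1 + a) ≤ 2 * f ^ 2 := by
    have : 1 + a ≤ 2 * f := by omega
    calc f * (1 + a) ≤ f * (2 * f) := Nat.mul_le_mul_left _ this
      _ = 2 * f ^ 2 := by ring
  calc (5 * B + E) * (4 * B + 1) ^ j * (f * (1 + a)) ≤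
      (5 * B + E) * (4 * B + 1) ^ b * (2 * f ^ 2) :=
        Nat.mul_le_mul (Nat.mul_le_mul_left _ h1) h2
    _ = 2 * ((5 * B + E) * (4 * B + 1) ^ b * f ^ 2) := by ring

end Pool.Agent.Lib.MP_9dcf40_lc.SU.End

namespace Pool.Agent.Lib.MP_9dcf40_lc.SU

open TT Finset Pool.Agent.Lib.BP

theorem tEnd (h1 : S_Ind) (h2 : S_Sph) (h3 : S_Num) (h4 : S_Prog) : S_End := by
  classical
  intro X _ s t hst N sl
  have hk : 2 ≤ Fintype.card X := by
    have : 1 < Fintype.card X := Fintype.one_lt_card_iff.2 ⟨s, t, hst⟩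
    omega
  rcases Nat.eq_zero_or_pos N with rfl | hN
  · refine ⟨End.triv _ _, ?_, ?_, ?_, ?_⟩
    · rintro g ⟨l, q, hq, _⟩
      exact absurd hq (Set.notMem_empty q)
    · intro g l q hq
      exact absurd hq (Set.notMem_empty q)
    · intro g
      rw [run_zero]
      constructor
      · rintro ⟨l, q, hq, _⟩
        exact absurd hq (Set.notMem_empty q)
      · intro h
        exact absurd h hst
    · rw [End.size_triv]
      apply Nat.one_le_pow
      apply Nat.mul_pos (by omega) (by omega)
  · set b := Nat.sqrt N + 1 with hb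
    have hb1 : 1 ≤ b := by omega
    have hNb : N < b * b := Nat.lt_succ_sqrt N
    set k := Fintype.card X with hkk
    set j := (N - 1) / b with hj
    have hjb : j < b := by
      rw [hj, Nat.div_lt_iff_lt_mul hb1]
      omega
    have hv : (N - 1) % b < b := Nat.mod_lt _ hb1
    have hjv : j * b + (N - 1) % b + 1 = N := by
      have := Nat.div_add_mod' (N - 1) b
      rw [← hj] at this
      omega
    set q := 4 * k * b with hq
    have hq1 : 1 ≤ q := by
      rw [hq]
      exact Nat.mul_pos (Nat.mul_pos (by norm_num) (by omega)) hb1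
    set B := 3 * (2 * b * q ^ 2 + 1) with hB
    obtain ⟨A, hA0, hAq, hA3, hAc⟩ := h2 (Fin b × Bool) q hq1
    have hcP : Fintype.card (Fin b × Bool) = 2 * b := by
      rw [Fintype.card_prod, Fintype.card_fin, Fintype.card_bool, mul_comm]
    rw [hcP] at hAc
    obtain ⟨hn1, hn2⟩ := h3 k b q B hk hb1 hq hB
    have hBA : (q + 2 * k) ^ (2 * b) ≤ B * A.card := by
      refine hn1.trans ?_
      rw [hB, mul_assoc]
      exact Nat.mul_le_mul_left 3 hAc
    have hcF : Fintype.card (Reg b (q + 2 * k)) = (q + 2 * k) ^ (2 * b) := by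
      rw [Fintype.card_fun, Fintype.card_fin, hcP]
    have hQ : 0 < q + 2 * k := by omega
    let r0 : Reg b (q + 2 * k) := fun _ => ⟨0, hQ⟩
    let φ : (Fin b → X) → Reg b (q + 2 * k) → Option (Reg b (q + 2 * k)) := fun z r =>
      if z ⟨(N - 1) % b, hv⟩ = t then some r else none
    obtain ⟨G, hGs, hG⟩ := h1 X sl s b q B A hA0 hAq hA3 hBA j Unit (Reg b (q + 2 * k))
      (le_of_eq hcF.symm) φ
    obtain ⟨P, hPs, hP⟩ := h4 X _ _ G ((), r0) ((), r0)
    have hacc : ∀ g, P.Accepts g ↔ run sl s g N = t := by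
      intro g
      rw [(hP g).1, (hG g () r0 () r0).1]
      have h5 : blk sl s b j g ⟨(N - 1) % b, hv⟩ = run sl s g N := by
        change run sl s g (j * b + (N - 1) % b + 1) = _
        rw [hjv]
      change (() = () ∧ (if blk sl s b j g ⟨(N - 1) % b, hv⟩ = t then some r0 else none) =
        some r0) ↔ _
      rw [h5]
      by_cases h6 : run sl s g N = t
      · simp [h6]
      · simp [h6]
    refine ⟨P, ?_, ?_, hacc, ?_⟩
    · intro g hg
      rw [hacc g] at hg
      rw [← hg]
      exact run_gen sl s g N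
    · intro g l p hp hc
      refine ⟨∅, by simp, ?_⟩
      intro p' hp' i i' hq'
      obtain ⟨m, m', hmm⟩ := (hP g).2 (Tru sl s g) (hG g () r0 () r0).2 l p hp hc p' hp' (i, i') hq'
      have e1 : i = run sl s g m := congrArg Prod.fst hmm
      have e2 : i' = run sl s g m' := congrArg Prod.snd hmm
      rw [e1, e2]
      exact ⟨Or.inl (run_gen sl s g m), Or.inl (run_gen sl s g m')⟩
    · rw [hPs]
      have hAle : A.card ≤ (q + 2 * k) ^ (2 * b) := by
        refine (End.card_le q A hAq).trans ?_
        rw [hcP]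
        exact Nat.pow_le_pow_left (by omega) _
      exact End.fin_le B ((2 * b + 2) * k ^ (3 * b)) (Fintype.card Unit) b j ((q + 2 * k) ^ (2 * b))
        (Fintype.card (Reg b (q + 2 * k))) A.card _ _ hjb.le hcF hAle (Nat.one_le_pow _ _ hQ) hn2
        Fintype.card_unit hGs

end Pool.Agent.Lib.MP_9dcf40_lc.SU
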