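import Pool.Agent.Lib.MP_9dcf40_lc.SU.Spec

/-! # The size by induction -/

set_option autoImplicit false

namespace Pool.Agent.Lib.MP_9dcf40_lc.SU

open TT Finset Pool.Agent.Lib.BP

namespace Ind

theorem has_mono {X : Type} {sl : ℕ → ℕ × ℕ} {s : X} {Co F : Type}
    {ρ : (X × X → X) → F → Option F} {n n' : ℕ} (h : n ≤ n') (h1 : Has sl s Co F ρ n) :
    Has sl s Co F ρ n' := by
  obtain ⟨G, hG, h2⟩ := h1
  exact ⟨G, hG.trans h, h2⟩

theorem geom (B j : ℕ) : 4 * B * ∑ i ∈ range j, (4 * B + 1) ^ i + 1 = (4 * B + 1) ^ j := by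
  induction j with
  | zero => simp
  | succ j ih =>
    rw [sum_range_succ, pow_succ]
    linear_combination ih

theorem num (B E W a c f R S : ℕ) (j : ℕ) (n : ℕ → ℕ) (hB : 1 ≤ B) (hS : S = f * (c + a))
    (hW : W ≤ B * a) (hWf : W ≤ f) (hR : R * a ≤ c + a)
    (hn : ∀ i, n i = (5 * B + E) * (4 * B + 1) ^ i * (W * (R * f + a))) :
    2 * (c * f) + 3 * (R * f * W) + E * (R * f * a) + 2 * ∑ i ∈ range j, n i ≤
      (5 * B + E) * (4 * B + 1) ^ j * S := by
  have h1 : 2 * (c * f) ≤ 2 * S := by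
    rw [hS]
    nlinarith
  have h2 : R * W ≤ B * (c + a) := by
    calc R * W ≤ R * (B * a) := Nat.mul_le_mul_left _ hW
      _ = B * (R * a) := by ring
      _ ≤ B * (c + a) := Nat.mul_le_mul_left _ hR
  have h3 : R * f * W ≤ B * S := by
    calc R * f * W = f * (R * W) := by ring
      _ ≤ f * (B * (c + a)) := Nat.mul_le_mul_left _ h2
      _ = B * S := by rw [hS]; ring
  have h4 : R * f * a ≤ S := by
    calc R * f * a = f * (R * a) := by ring
      _ ≤ f * (c + a) := Nat.mul_le_mul_left _ hR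
      _ = S := hS.symm
  have h5 : W * (R * f + a) ≤ 2 * B * S := by
    have h6 : W * a ≤ B * S := by
      calc W * a ≤ f * a := Nat.mul_le_mul_right _ hWf
        _ ≤ f * (c + a) := Nat.mul_le_mul_left _ (Nat.le_add_left _ _)
        _ = 1 * S := by rw [hS, one_mul]
        _ ≤ B * S := Nat.mul_le_mul_right _ hB
    calc W * (R * f + a) = R * f * W + W * a := by ring
      _ ≤ B * S + B * S := Nat.add_le_add h3 h6
      _ = 2 * B * S := by ring
  have h7 : 2 * ∑ i ∈ range j, n i ≤
      (5 * B + E) * S * (4 * B * ∑ i ∈ range j, (4 * B + 1) ^ i) := by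
    have h8 : ∑ i ∈ range j, n i ≤
        ∑ i ∈ range j, (5 * B + E) * (2 * B * S) * (4 * B + 1) ^ i := by
      refine sum_le_sum fun i _ => ?_
      rw [hn i]
      calc (5 * B + E) * (4 * B + 1) ^ i * (W * (R * f + a))
          ≤ (5 * B + E) * (4 * B + 1) ^ i * (2 * B * S) := Nat.mul_le_mul_left _ h5
        _ = (5 * B + E) * (2 * B * S) * (4 * B + 1) ^ i := by ring
    rw [← mul_sum] at h8
    calc 2 * ∑ i ∈ range j, n i
        ≤ 2 * ((5 * B + E) * (2 * B * S) * ∑ i ∈ range j, (4 * B + 1) ^ i) :=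
          Nat.mul_le_mul_left _ h8
      _ = (5 * B + E) * S * (4 * B * ∑ i ∈ range j, (4 * B + 1) ^ i) := by ring
  have h9 : E * (R * f * a) ≤ E * S := Nat.mul_le_mul_left _ h4
  have h10 : 2 * S ≤ 2 * (B * S) := Nat.mul_le_mul_left _ (Nat.le_mul_of_pos_left _ hB)
  rw [← geom B j]
  have h11 : (5 * B + E) * (4 * B * ∑ i ∈ range j, (4 * B + 1) ^ i + 1) * S =
      (5 * B + E) * S * (4 * B * ∑ i ∈ range j, (4 * B + 1) ^ i) + 5 * (B * S) + E * S := by
    ring
  rw [h11]
  omega

end Ind

open Ind in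
theorem tInd (h : S_Step) : S_Ind := by
  intro X _ sl s b q B A hA hAq hA3 hW j
  have hk : 0 < Fintype.card X := Fintype.card_pos_iff.mpr ⟨s⟩
  have ha : 0 < A.card := card_pos.mpr hA
  have hWpos : 0 < (q + 2 * Fintype.card X) ^ (2 * b) := Nat.pow_pos (by omega)
  have hB : 1 ≤ B := by
    rcases Nat.eq_zero_or_pos B with h0 | h0
    · rw [h0, zero_mul] at hW
      omega
    · exact h0
  induction j using Nat.strong_induction_on with
  | _ j ih =>
    intro Co F _ _ hF φ
    have hcR : Fintype.card Co ≤ (Fintype.card Co / A.card + 1) * A.card := by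
      have h1 := Nat.lt_div_mul_add (a := Fintype.card Co) ha
      rw [add_mul, one_mul]
      exact h1.le
    have hRc : (Fintype.card Co / A.card + 1) * A.card ≤ Fintype.card Co + A.card := by
      rw [add_mul, one_mul]
      exact Nat.add_le_add_right (Nat.div_mul_le_self _ _) _
    set R := Fintype.card Co / A.card + 1 with hR
    have hreg : Fintype.card (Reg b (q + 2 * Fintype.card X)) =
        (q + 2 * Fintype.card X) ^ (2 * b) := by
      rw [Fintype.card_fun, Fintype.card_fin, Fintype.card_prod, Fintype.card_fin,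
        Fintype.card_bool, mul_comm b 2]
    have h1 := h X sl s b j q R (fun z => (Fintype.equivFin X z : ℕ)) A Co F φ
      (fun i => (5 * B + (2 * b + 2) * Fintype.card X ^ (3 * b)) * (4 * B + 1) ^ i *
        ((q + 2 * Fintype.card X) ^ (2 * b) * (R * Fintype.card F + A.card)))
      (fun z z' hz => (Fintype.equivFin X).injective (Fin.ext hz))
      (fun z => (Fintype.equivFin X z).2) hAq hA3 hcR (by
        intro i hi ψ
        have h2 := ih i hi (Fin R × F) (Reg b (q + 2 * Fintype.card X)) (le_of_eq hreg.symm) ψ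
        rw [hreg, Fintype.card_prod, Fintype.card_fin] at h2
        exact h2)
    refine has_mono ?_ h1
    have h3 := num B ((2 * b + 2) * Fintype.card X ^ (3 * b)) ((q + 2 * Fintype.card X) ^ (2 * b))
      A.card (Fintype.card Co) (Fintype.card F) R (Fintype.card F * (Fintype.card Co + A.card)) j
      (fun i => (5 * B + (2 * b + 2) * Fintype.card X ^ (3 * b)) * (4 * B + 1) ^ i *
        ((q + 2 * Fintype.card X) ^ (2 * b) * (R * Fintype.card F + A.card))) hB rfl hW hF hRc
      (fun i => rfl)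
    refine le_trans (le_of_eq ?_) h3
    ring

end Pool.Agent.Lib.MP_9dcf40_lc.SU
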