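import Pool.Agent.Lib.MP_9dcf40_lc.SU.Spec

/-!
# Two-sided GenBP: numbers
-/

set_option autoImplicit false

namespace Pool.Agent.Lib.MP_9dcf40_lc.SU

open TT Finset Pool.Agent.Lib.BP

namespace Num

theorem three (D : ℕ) (hD : 1 ≤ D) : (D + 1) ^ D ≤ 3 * D ^ D := by
  have hD0 : (0 : ℝ) < D := by exact_mod_cast hD
  have h1 : (1 : ℝ) / D + 1 ≤ Real.exp (1 / D) := Real.add_one_le_exp _
  have h2 : ((1 : ℝ) / D + 1) ^ D ≤ Real.exp (1 / D) ^ D := by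
    apply pow_le_pow_left₀ _ h1
    positivity
  have h3 : Real.exp (1 / D) ^ D = Real.exp 1 := by
    rw [← Real.exp_nat_mul]
    congr 1
    field_simp
  have h4 : ((D : ℝ) + 1) ^ D = D ^ D * ((1 : ℝ) / D + 1) ^ D := by
    rw [← mul_pow]
    congr 1
    field_simp
    ring
  have h5 : ((D : ℝ) + 1) ^ D ≤ 3 * D ^ D := by
    rw [h4, mul_comm (3 : ℝ)]
    apply mul_le_mul_of_nonneg_left _ (by positivity)
    calc ((1 : ℝ) / D + 1) ^ D ≤ Real.exp 1 := by rw [← h3]; exact h2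
      _ ≤ 3 := by
        have := Real.exp_one_lt_d9
        linarith
  exact_mod_cast h5

theorem pow_mono {x y n : ℕ} (h : x ≤ y) : x ^ n ≤ y ^ n := Nat.pow_le_pow_left h n

end Num

open Pool.Agent.Lib.MP_9dcf40_lc.SU.Num in
theorem tNum : S_Num := by
  intro k b q B hk hb hq hB
  have hk1 : 1 ≤ k := by omega
  refine ⟨?_, ?_⟩
  · have e1 : q + 2 * k = 2 * k * (2 * b + 1) := by rw [hq]; ring
    have e2 : q = 2 * k * (2 * b) := by rw [hq]; ring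
    have h := three (2 * b) (by omega)
    rw [e1, e2, mul_pow (2 * k) (2 * b + 1), mul_pow (2 * k) (2 * b)]
    calc (2 * k) ^ (2 * b) * (2 * b + 1) ^ (2 * b)
        ≤ (2 * k) ^ (2 * b) * (3 * (2 * b) ^ (2 * b)) := Nat.mul_le_mul_left _ h
      _ = 3 * ((2 * k) ^ (2 * b) * (2 * b) ^ (2 * b)) := by ring
  · have hkb : 1 ≤ k ^ 2 * b ^ 3 := Nat.one_le_iff_ne_zero.2 (by positivity)
    have hB1 : B = 96 * (k ^ 2 * b ^ 3) + 3 := by rw [hB, hq]; ring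
    have hB2 : 5 * B ≤ 512 * (k ^ 2 * b ^ 3) := by omega
    have hB3 : 4 * B + 1 ≤ 512 * (k ^ 2 * b ^ 3) := by omega
    have h29 : 512 ≤ k ^ 9 := le_trans (by norm_num) (pow_mono (n := 9) hk)
    have h211 : 2048 ≤ k ^ 11 := le_trans (by norm_num) (pow_mono (n := 11) hk)
    -- the second factor
    have hF2 : (4 * B + 1) ^ b ≤ k ^ (11 * b) * b ^ (3 * b) := by
      have h1 : 4 * B + 1 ≤ k ^ 11 * b ^ 3 := by
        refine hB3.trans ?_
        calc 512 * (k ^ 2 * b ^ 3) ≤ k ^ 9 * (k ^ 2 * b ^ 3) := Nat.mul_le_mul_right _ h29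
          _ = k ^ 11 * b ^ 3 := by ring
      calc (4 * B + 1) ^ b ≤ (k ^ 11 * b ^ 3) ^ b := pow_mono h1
        _ = k ^ (11 * b) * b ^ (3 * b) := by rw [mul_pow, ← pow_mul, ← pow_mul]
    -- the third factor
    have hF3 : ((q + 2 * k) ^ (2 * b)) ^ 2 ≤ k ^ (15 * b) * b ^ (4 * b) := by
      have h1 : q + 2 * k ≤ 6 * (k * b) := by
        have : 2 * k ≤ 2 * (k * b) := Nat.mul_le_mul_left 2 (Nat.le_mul_of_pos_right k hb)
        rw [hq]
        calc 4 * k * b + 2 * k ≤ 4 * k * b + 2 * (k * b) := Nat.add_le_add_left this _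
          _ = 6 * (k * b) := by ring
      have h2 : (q + 2 * k) ^ 4 ≤ k ^ 15 * b ^ 4 := by
        calc (q + 2 * k) ^ 4 ≤ (6 * (k * b)) ^ 4 := pow_mono h1
          _ = 1296 * (k ^ 4 * b ^ 4) := by ring
          _ ≤ k ^ 11 * (k ^ 4 * b ^ 4) := Nat.mul_le_mul_right _ (le_trans (by norm_num) h211)
          _ = k ^ 15 * b ^ 4 := by ring
      calc ((q + 2 * k) ^ (2 * b)) ^ 2 = ((q + 2 * k) ^ 4) ^ b := by
            rw [← pow_mul, ← pow_mul]; congr 1; ring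
        _ ≤ (k ^ 15 * b ^ 4) ^ b := pow_mono h2
        _ = k ^ (15 * b) * b ^ (4 * b) := by rw [mul_pow, ← pow_mul, ← pow_mul]
    -- the first factor
    have hF1 : 2 * (5 * B + (2 * b + 2) * k ^ (3 * b)) ≤ k ^ (3 * b + 13) * b ^ 3 := by
      have h1 : 2 * (5 * B) ≤ 1024 * (k ^ (3 * b + 2) * b ^ 3) := by
        have : k ^ 2 * b ^ 3 ≤ k ^ (3 * b + 2) * b ^ 3 :=
          Nat.mul_le_mul_right _ (Nat.pow_le_pow_right hk1 (by omega))
        omega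
      have h2 : 2 * ((2 * b + 2) * k ^ (3 * b)) ≤ 8 * (k ^ (3 * b + 2) * b ^ 3) := by
        have h3 : 2 * b + 2 ≤ 4 * b ^ 3 := by
          have : b ≤ b ^ 3 := Nat.le_self_pow (by norm_num) b
          omega
        calc 2 * ((2 * b + 2) * k ^ (3 * b)) ≤ 2 * (4 * b ^ 3 * k ^ (3 * b + 2)) :=
              Nat.mul_le_mul_left _ (Nat.mul_le_mul h3 (Nat.pow_le_pow_right hk1 (by omega)))
          _ = 8 * (k ^ (3 * b + 2) * b ^ 3) := by ring
      calc 2 * (5 * B + (2 * b + 2) * k ^ (3 * b))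
          = 2 * (5 * B) + 2 * ((2 * b + 2) * k ^ (3 * b)) := by ring
        _ ≤ 1024 * (k ^ (3 * b + 2) * b ^ 3) + 8 * (k ^ (3 * b + 2) * b ^ 3) :=
              Nat.add_le_add h1 h2
        _ = 1032 * (k ^ (3 * b + 2) * b ^ 3) := by ring
        _ ≤ k ^ 11 * (k ^ (3 * b + 2) * b ^ 3) := Nat.mul_le_mul_right _ (le_trans (by norm_num) h211)
        _ = k ^ (3 * b + 13) * b ^ 3 := by ring
    calc 2 * ((5 * B + (2 * b + 2) * k ^ (3 * b)) * (4 * B + 1) ^ b * ((q + 2 * k) ^ (2 * b)) ^ 2)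
        = (2 * (5 * B + (2 * b + 2) * k ^ (3 * b))) * (4 * B + 1) ^ b *
            ((q + 2 * k) ^ (2 * b)) ^ 2 := by ring
      _ ≤ (k ^ (3 * b + 13) * b ^ 3) * (k ^ (11 * b) * b ^ (3 * b)) * (k ^ (15 * b) * b ^ (4 * b)) :=
            Nat.mul_le_mul (Nat.mul_le_mul hF1 hF2) hF3
      _ = k ^ (29 * b + 13) * b ^ (7 * b + 3) := by ring
      _ ≤ k ^ (50 * b) * b ^ (50 * b) :=
            Nat.mul_le_mul (Nat.pow_le_pow_right hk1 (by omega)) (Nat.pow_le_pow_right hb (by omega))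
      _ = (k * b) ^ (50 * b) := by rw [mul_pow]

end Pool.Agent.Lib.MP_9dcf40_lc.SU
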