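import Pool.Agent.Lib.MP_9dcf40_lc.SU.Spec

/-!
# The straight-line program of the butterfly (MP_9dcf40_lc, SU/Ord)
-/

namespace Pool.Agent.Lib.MP_9dcf40_lc.SU

open TT Finset Pool.Agent.Lib.BP

namespace Ord

variable {b R : ℕ}

/-- The number of a node. -/
noncomputable def num (v : Nd b R) : ℕ := (v.1 : ℕ) * 2 ^ b + (enum b v.2 : ℕ) + 1

/-- The number of a child. -/
noncomputable def numo (o : Option (Nd b R)) : ℕ := o.elim 0 num

/-- The node with the number `m + 1`. -/
noncomputable def node (b R m : ℕ) : Nd b R :=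
  nd R (m / 2 ^ b) ((enum b).symm ⟨m % 2 ^ b, Nat.mod_lt _ (by positivity)⟩)

/-- The straight-line program. -/
noncomputable def prog (b R m : ℕ) : ℕ × ℕ :=
  (numo (fch b R (node b R m)).1, numo (fch b R (node b R m)).2)

theorem num_nd {i : ℕ} (h : i ≤ R) (x : Pos b) : num (nd R i x) = i * 2 ^ b + (enum b x : ℕ) + 1 := by
  unfold num
  rw [nd_val h]
  rfl

theorem node_num (v : Nd b R) : node b R (num v - 1) = v := by
  have h2 : (enum b v.2 : ℕ) < 2 ^ b := (enum b v.2).2
  have e : num v - 1 = (enum b v.2 : ℕ) + 2 ^ b * (v.1 : ℕ) := by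
    unfold num
    rw [Nat.add_sub_cancel, Nat.add_comm, Nat.mul_comm]
  have hd : (num v - 1) / 2 ^ b = v.1 := by
    rw [e, Nat.add_mul_div_left _ _ (by positivity), Nat.div_eq_of_lt h2, Nat.zero_add]
  have hm : (num v - 1) % 2 ^ b = enum b v.2 := by
    rw [e, Nat.add_mul_mod_self_left, Nat.mod_eq_of_lt h2]
  have hx : (enum b).symm ⟨(num v - 1) % 2 ^ b, Nat.mod_lt _ (by positivity)⟩ = v.2 := by
    rw [Equiv.symm_apply_eq]
    exact Fin.ext hm
  unfold node
  rw [hx, hd]
  exact (eq_nd v).symm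

/-- The children of a node have smaller numbers. -/
theorem child_le (v : Nd b R) :
    numo (fch b R v).1 ≤ num v - 1 ∧ numo (fch b R v).2 ≤ num v - 1 := by
  rw [eq_nd v]
  have hv := v.1.2
  rcases Nat.eq_zero_or_pos (v.1 : ℕ) with h0 | h0
  · rw [h0, fch_zero]
    refine ⟨Nat.zero_le _, ?_⟩
    by_cases hx : (enum b v.2 : ℕ) = 0
    · rw [pred, if_pos hx]
      exact Nat.zero_le _
    · rw [pred, if_neg hx]
      show num _ ≤ _
      rw [num_nd (Nat.zero_le R), num_nd (Nat.zero_le R), Equiv.apply_symm_apply]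
      simp only []
      omega
  · obtain ⟨i, hi⟩ : ∃ i, (v.1 : ℕ) = i + 1 := ⟨(v.1 : ℕ) - 1, by omega⟩
    rw [hi, fch_succ (by omega)]
    have key : ∀ x : Pos b, num (nd R i x) ≤ num (nd R (i + 1) v.2) - 1 := by
      intro x
      rw [num_nd (by omega), num_nd (by omega)]
      have hx : (enum b x : ℕ) < 2 ^ b := (enum b x).2
      have : (i + 1) * 2 ^ b = i * 2 ^ b + 2 ^ b := by ring
      omega
    exact ⟨key _, key _⟩

theorem num_le (v : Nd b R) : num v ≤ (R + 1) * 2 ^ b := by
  have h2 : (enum b v.2 : ℕ) < 2 ^ b := (enum b v.2).2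
  have h1 : (v.1 : ℕ) ≤ R := by have := v.1.2; omega
  have h3 : (v.1 : ℕ) * 2 ^ b ≤ R * 2 ^ b := Nat.mul_le_mul_right _ h1
  have : (R + 1) * 2 ^ b = R * 2 ^ b + 2 ^ b := by ring
  unfold num
  omega

theorem run_num {α K : Type} (nm : Option (Nd b R × K) → α) (h : Function.Injective nm)
    (a : Nd b R → K) : ∀ (m : ℕ) (v : Nd b R), num v = m →
    run (prog b R) (nm none) ((flyDag b R nm h).inp a) m = (flyDag b R nm h).name a (some v) := by
  intro m
  induction m using Nat.strong_induction_on with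
  | _ m ih =>
    intro v hv
    set G := flyDag b R nm h with hG
    obtain ⟨k, rfl⟩ : ∃ k, m = k + 1 := ⟨num v - 1, by rw [← hv]; unfold num; omega⟩
    have hk : num v - 1 = k := by omega
    have hp : prog b R k = (numo (fch b R v).1, numo (fch b R v).2) := by
      unfold prog
      rw [← hk, node_num]
    have hc := child_le v
    have key : ∀ o : Option (Nd b R), numo o ≤ k →
        run (prog b R) (nm none) (G.inp a) (numo o) = G.name a o := by
      intro o ho
      cases o with
      | none => exact run_zero _ _ _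
      | some u => exact ih _ (Nat.lt_succ_of_le ho) u rfl
    rw [run_succ, hp]
    simp only []
    rw [min_eq_left (by omega), min_eq_left (by omega), key _ (by omega), key _ (by omega)]
    exact G.inp_ch v

end Ord

theorem tOrd : S_Ord := by
  intro α K b R nm h
  exact ⟨Ord.prog b R, fun v => ⟨Ord.num v, Ord.num_le v, fun a => Ord.run_num nm h a _ v rfl⟩⟩

end Pool.Agent.Lib.MP_9dcf40_lc.SU
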