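import Pool.Agent.Lib.MP_9dcf40_lc.SU.Spec

/-!
# Two-sided GenBP: a fragment with an entry and an exit as a program
-/

set_option autoImplicit false

namespace Pool.Agent.Lib.MP_9dcf40_lc.SU

open TT Finset Pool.Agent.Lib.BP

namespace Prog

variable {X U W : Type}

/-- The program of a fragment. -/
def prog (G : Frag (X × X) X U W) (u : U) (w : W) : NBP (X × X) X :=
  ⟨G.Q, G.fin, G.ent u, {G.ext w}, G.query, G.next⟩

theorem toP {G : Frag (X × X) X U W} {u : U} {w : W} {g : X × X → X} {q q' : G.Q} {l : List G.Q}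
    (h : G.Comp g q l q') : (prog G u w).Comp g q l q' := by
  induction h with
  | nil q => exact .nil (P := prog G u w) q
  | cons q q₁ l q' hs _ ih => exact .cons (P := prog G u w) q q₁ l q' hs ih

theorem ofP {G : Frag (X × X) X U W} {u : U} {w : W} {g : X × X → X} {q q' : (prog G u w).Q}
    {l : List (prog G u w).Q} (h : (prog G u w).Comp g q l q') : G.Comp g q l q' := by
  induction h with
  | nil q => exact .nil (G := G) q
  | cons q q₁ l q' hs _ ih => exact .cons (G := G) q q₁ l q' hs ih

end Prog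

open Prog in
theorem tProg : S_Prog := by
  intro X U W G u w
  refine ⟨prog G u w, rfl, fun g => ⟨⟨?_, ?_⟩, ?_⟩⟩
  · rintro ⟨l, q, hq, h⟩
    obtain rfl : q = G.ext w := hq
    exact ⟨l, ofP h⟩
  · rintro ⟨l, h⟩
    exact ⟨l, G.ext w, rfl, toP h⟩
  · intro T hT l q hq h p hp e he
    obtain rfl : q = G.ext w := hq
    exact hT l (ofP h) p hp e he

end Pool.Agent.Lib.MP_9dcf40_lc.SU
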