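import Pool.Agent.Lib.MP_9dcf40_lc.SU.Spec

/-!
# The main step (MP_9dcf40_lc, two-sided GenBP)
-/

namespace Pool.Agent.Lib.MP_9dcf40_lc.SU

open TT Finset Pool.Agent.Lib.BP

namespace Step

variable {X : Type}

/-- The numbers guessed at the external pointers. -/
def xe (sl : ℕ → ℕ × ℕ) (b j : ℕ) (nm : X → ℕ) (x : Fin b × Bool → X) (p : Fin b × Bool) : ℕ :=
  if Ext sl b j p then nm (x p) else 0

theorem xe_le {sl : ℕ → ℕ × ℕ} {b j k : ℕ} {nm : X → ℕ} (h : ∀ z, nm z < k)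
    (x : Fin b × Bool → X) (p : Fin b × Bool) : xe sl b j nm x p ≤ k := by
  unfold xe
  split_ifs
  · exact (h _).le
  · omega

/-- The arithmetic of the 3-AP-free set. -/
theorem ap {P : Type} {A : Set (P → ℕ)} (hA : ThreeAPFree A) {a a' a'' x x' : P → ℕ}
    (ha : a ∈ A) (ha' : a' ∈ A) (ha'' : a'' ∈ A) (h1 : ∀ p, a p + x p = a' p + x' p)
    (h2 : ∀ p, a' p + 2 * x' p = a'' p + 2 * x p) : a' = a ∧ a'' = a ∧ ∀ p, x' p = x p := by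
  have e1 : a' + a'' = a + a := by
    funext p
    simp only [Pi.add_apply]
    have := h1 p
    have := h2 p
    omega
  have e2 : a' = a := hA ha' ha ha'' e1
  refine ⟨e2, ?_, fun p => ?_⟩
  · funext p
    have := congrFun e1 p
    have := congrFun e2 p
    simp only [Pi.add_apply] at *
    omega
  · have := congrFun e2 p
    have := h1 p
    omega

/-- Five fragments, the first and the last one trivial. -/
theorem seq5 (h1 : S_Idf) (h2 : S_Seq) (A B U V₁ V₁' V₂ V₂' V₃ : Type) [Fintype U]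
    (G₁ : Frag A B V₁ V₁') (G₂ : Frag A B V₂ V₂') (G₃ : Frag A B V₂' V₃)
    (L₁ : U → V₁ → Prop) (L₂ : V₁' → V₂ → Prop) (L₃ : V₃ → U → Prop) :
    ∃ G : Frag A B U U, G.size = 2 * Fintype.card U + G₁.size + G₂.size + G₃.size ∧
    ∀ I u w, (G.Reach I u w ↔ ∃ v₁ v₁' v₂ v₂' v₃, L₁ u v₁ ∧ G₁.Reach I v₁ v₁' ∧ L₂ v₁' v₂ ∧
      G₂.Reach I v₂ v₂' ∧ G₃.Reach I v₂' v₃ ∧ L₃ v₃ w) ∧
    ∀ T : A → Prop, (∀ v₁ v₁' v₂ v₂' v₃, L₁ u v₁ → G₁.Reach I v₁ v₁' → L₂ v₁' v₂ →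
      G₂.Reach I v₂ v₂' → G₃.Reach I v₂' v₃ → L₃ v₃ w →
      G₁.Ok I T v₁ v₁' ∧ G₂.Ok I T v₂ v₂' ∧ G₃.Ok I T v₂' v₃) → G.Ok I T u w := by
  obtain ⟨I₀, hI₀s, hI₀⟩ := h1 A B U
  obtain ⟨H₁, hH₁s, hH₁⟩ := h2 A B U U V₁ V₁' I₀ G₁ L₁
  obtain ⟨H₂, hH₂s, hH₂⟩ := h2 A B U V₁' V₂ V₂' H₁ G₂ L₂
  obtain ⟨H₃, hH₃s, hH₃⟩ := h2 A B U V₂' V₂' V₃ H₂ G₃ (fun v v' => v = v')
  obtain ⟨H₄, hH₄s, hH₄⟩ := h2 A B U V₃ U U H₃ I₀ L₃
  have r1 : ∀ I u v₁', H₁.Reach I u v₁' ↔ ∃ v₁, L₁ u v₁ ∧ G₁.Reach I v₁ v₁' := by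
    intro I u v₁'
    rw [(hH₁ I u v₁').1]
    constructor
    · rintro ⟨u', v₁, hu, hL, hr⟩
      rw [(hI₀ I u u').1] at hu
      subst hu
      exact ⟨v₁, hL, hr⟩
    · rintro ⟨v₁, hL, hr⟩
      exact ⟨u, v₁, (hI₀ I u u).1.2 rfl, hL, hr⟩
  have r2 : ∀ I u v₂', H₂.Reach I u v₂' ↔ ∃ v₁ v₁' v₂, L₁ u v₁ ∧ G₁.Reach I v₁ v₁' ∧
      L₂ v₁' v₂ ∧ G₂.Reach I v₂ v₂' := by
    intro I u v₂'
    rw [(hH₂ I u v₂').1]
    constructor
    · rintro ⟨v₁', v₂, hu, hL, hr⟩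
      obtain ⟨v₁, hL1, hr1⟩ := (r1 I u v₁').1 hu
      exact ⟨v₁, v₁', v₂, hL1, hr1, hL, hr⟩
    · rintro ⟨v₁, v₁', v₂, hL1, hr1, hL, hr⟩
      exact ⟨v₁', v₂, (r1 I u v₁').2 ⟨v₁, hL1, hr1⟩, hL, hr⟩
  have r3 : ∀ I u v₃, H₃.Reach I u v₃ ↔ ∃ v₁ v₁' v₂ v₂', L₁ u v₁ ∧ G₁.Reach I v₁ v₁' ∧
      L₂ v₁' v₂ ∧ G₂.Reach I v₂ v₂' ∧ G₃.Reach I v₂' v₃ := by
    intro I u v₃
    rw [(hH₃ I u v₃).1]
    constructor
    · rintro ⟨v₂', w, hu, hL, hr⟩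
      subst hL
      obtain ⟨v₁, v₁', v₂, a1, a2, a3, a4⟩ := (r2 I u v₂').1 hu
      exact ⟨v₁, v₁', v₂, v₂', a1, a2, a3, a4, hr⟩
    · rintro ⟨v₁, v₁', v₂, v₂', a1, a2, a3, a4, hr⟩
      exact ⟨v₂', v₂', (r2 I u v₂').2 ⟨v₁, v₁', v₂, a1, a2, a3, a4⟩, rfl, hr⟩
  refine ⟨H₄, by rw [hH₄s, hH₃s, hH₂s, hH₁s, hI₀s]; ring, fun I u w => ⟨?_, fun T hT => ?_⟩⟩
  · rw [(hH₄ I u w).1]
    constructor
    · rintro ⟨v₃, u', hu, hL, hr⟩
      rw [(hI₀ I u' w).1] at hr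
      subst hr
      obtain ⟨v₁, v₁', v₂, v₂', a1, a2, a3, a4, a5⟩ := (r3 I u v₃).1 hu
      exact ⟨v₁, v₁', v₂, v₂', v₃, a1, a2, a3, a4, a5, hL⟩
    · rintro ⟨v₁, v₁', v₂, v₂', v₃, a1, a2, a3, a4, a5, hL⟩
      exact ⟨v₃, w, (r3 I u v₃).2 ⟨v₁, v₁', v₂, v₂', a1, a2, a3, a4, a5⟩, hL,
        (hI₀ I w w).1.2 rfl⟩
  · refine (hH₄ I u w).2 T fun v₃ u' hu hL hr => ⟨?_, (hI₀ I u' w).2 T⟩
    rw [(hI₀ I u' w).1] at hr
    subst hr
    refine (hH₃ I u v₃).2 T fun v₂' z hz hE hr3 => ?_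
    subst hE
    have key : ∀ v₁ v₁' v₂, L₁ u v₁ → G₁.Reach I v₁ v₁' → L₂ v₁' v₂ → G₂.Reach I v₂ v₂' →
        G₁.Ok I T v₁ v₁' ∧ G₂.Ok I T v₂ v₂' ∧ G₃.Ok I T v₂' v₃ :=
      fun v₁ v₁' v₂ a1 a2 a3 a4 => hT v₁ v₁' v₂ v₂' v₃ a1 a2 a3 a4 hr3 hL
    refine ⟨?_, ?_⟩
    · refine (hH₂ I u v₂').2 T fun v₁' v₂ hz1 hL2 hr2 => ?_
      refine ⟨?_, ?_⟩
      · refine (hH₁ I u v₁').2 T fun u' v₁ hu' hL1 hr1 => ⟨(hI₀ I u u').2 T, ?_⟩
        rw [(hI₀ I u u').1] at hu'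
        subst hu'
        exact (key v₁ v₁' v₂ hL1 hr1 hL2 hr2).1
      · obtain ⟨v₁, a1, a2⟩ := (r1 I u v₁').1 hz1
        exact (key v₁ v₁' v₂ a1 a2 hL2 hr2).2.1
    · obtain ⟨v₁, v₁', v₂, a1, a2, a3, a4⟩ := (r2 I u v₂').1 hz
      exact (key v₁ v₁' v₂ a1 a2 a3 a4).2.2

theorem card_reg (b Q : ℕ) : Fintype.card (Reg b Q) = Q ^ (2 * b) := by
  rw [Fintype.card_fun, Fintype.card_prod, Fintype.card_fin, Fintype.card_fin, Fintype.card_bool,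
    mul_comm]

end Step

open Step in
theorem tStep (h1 : S_Idf) (h2 : S_Seq) (h3 : S_Chain) (h4 : S_Blk) (h5 : S_BTrue) (h6 : S_Add)
    (h7 : S_Sbt) : S_Step := by
  intro X _ sl s b j q R nm A Co F _ _ φ n hnm hnmk hAq hA hcard hV
  set k := Fintype.card X with hk
  set Q := q + 2 * k with hQ
  obtain ⟨code⟩ : Nonempty (Co ↪ {a // a ∈ A} × Fin R) := by
    apply Function.Embedding.nonempty_of_card_le
    rw [Fintype.card_prod, Fintype.card_coe, Fintype.card_fin, mul_comm]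
    exact hcard
  obtain ⟨G₁, hG₁s, hG₁⟩ := h3 X sl s (Fin R × F) (Reg b Q)
    (fun i g => add sl b j nm Q i (blk sl s b i g)) n j
    (fun i hi => hV i hi (add sl b j nm Q i))
  obtain ⟨G₃, hG₃s, hG₃⟩ := h3 X sl s (Fin R × F) (Reg b Q)
    (fun i g => sbt sl b j nm Q i (blk sl s b i g)) n j
    (fun i hi => hV i hi (sbt sl b j nm Q i))
  have hlt : ∀ (a : {a // a ∈ A}) (x : Fin b × Bool → X) p,
      a.1 p + 2 * xe sl b j nm x p < Q := by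
    intro a x p
    have := hAq a.1 a.2 p
    have := xe_le (sl := sl) (b := b) (j := j) hnmk x p
    omega
  set out : Fin R × F × {a // a ∈ A} × (Fin b × Bool → X) → (Fin b → X) →
      Option ((Fin R × F) × Reg b Q) := fun z y => (φ y z.2.1).map fun f' =>
    ((z.1, f'), fun p => ⟨z.2.2.1.1 p + 2 * xe sl b j nm z.2.2.2 p, hlt _ _ p⟩) with hout
  obtain ⟨G₂, hG₂s, hG₂⟩ := h4 X sl s b j (Fin R × F × {a // a ∈ A} × (Fin b × Bool → X))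
    ((Fin R × F) × Reg b Q) (fun z => z.2.2.2) out
  obtain ⟨G, hGs, hG⟩ := seq5 h1 h2 (X × X) X (Co × F) ((Fin R × F) × Reg b Q)
    ((Fin R × F) × Reg b Q) (Fin R × F × {a // a ∈ A} × (Fin b × Bool → X))
    ((Fin R × F) × Reg b Q) ((Fin R × F) × Reg b Q) G₁ G₂ G₃
    (fun cf u => u.1 = ((code cf.1).2, cf.2) ∧ ∀ p, (u.2 p : ℕ) = (code cf.1).1.1 p)
    (fun u z => z.1 = u.1.1 ∧ z.2.1 = u.1.2 ∧
      ∀ p, (u.2 p : ℕ) = z.2.2.1.1 p + xe sl b j nm z.2.2.2 p)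
    (fun u cf => u.1 = ((code cf.1).2, cf.2) ∧ ∀ p, (u.2 p : ℕ) = (code cf.1).1.1 p)
  -- soundness of a complete computation
  have key : ∀ g c f c' f' v₁ v₁' v₂ v₂' v₃,
      (v₁.1 = ((code c).2, f) ∧ ∀ p, (v₁.2 p : ℕ) = (code c).1.1 p) →
      G₁.Reach g v₁ v₁' →
      (v₂.1 = v₁'.1.1 ∧ v₂.2.1 = v₁'.1.2 ∧
        ∀ p, (v₁'.2 p : ℕ) = v₂.2.2.1.1 p + xe sl b j nm v₂.2.2.2 p) →
      G₂.Reach g v₂ v₂' → G₃.Reach g v₂' v₃ →
      (v₃.1 = ((code c').2, f') ∧ ∀ p, (v₃.2 p : ℕ) = (code c').1.1 p) →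
      (∀ p, Ext sl b j p → v₂.2.2.2 p = run sl s g (ch sl b j p.1 p.2)) ∧ c' = c ∧
        φ (blk sl s b j g) f = some f' := by
    rintro g c f c' f' ⟨⟨ρ1, f1⟩, r1⟩ ⟨⟨ρ2, f2⟩, r2⟩ ⟨ρ3, f3, a3, x3⟩ ⟨⟨ρ4, f4⟩, r4⟩
      ⟨⟨ρ5, f5⟩, r5⟩ ⟨e1, e1'⟩ hr1 ⟨e2, e2', e2''⟩ hr2 hr3 ⟨e3, e3'⟩
    simp only [Prod.mk.injEq] at e1 e3
    obtain ⟨rfl, rfl⟩ := e1
    obtain ⟨e3a, rfl⟩ := e3
    simp only at e2 e2' e2'' e1' e3'
    subst e2 e2'
    rw [(hG₁ g _ _ _ _).1] at hr1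
    obtain ⟨hr1a, hr1b⟩ := hr1
    simp only [Prod.mk.injEq] at hr1a
    obtain ⟨rfl, rfl⟩ := hr1a
    rw [(hG₃ g _ _ _ _).1] at hr3
    obtain ⟨hr3a, hr3b⟩ := hr3
    simp only [Prod.mk.injEq] at hr3a
    obtain ⟨rfl, rfl⟩ := hr3a
    rw [(hG₂ g _ _).1] at hr2
    simp only [hout, Option.map_eq_some_iff, Prod.mk.injEq] at hr2
    obtain ⟨f6, hf6, ⟨h7a, h7b⟩, h7c⟩ := hr2
    subst h7b
    -- the additions
    obtain ⟨r2', hr2', hr2x⟩ := h6 X sl b j Q k nm hnmk (run sl s g) r1 (fun p => by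
      rw [e1']
      have := hAq _ (code c).1.2 p
      omega)
    have hr2e : r2' = r2 := by
      have : some r2' = some r2 := hr2'.symm.trans hr1b
      exact Option.some.inj this
    subst hr2e
    have hr4 := (h7 X sl b j Q nm (run sl s g) r4 r5).1 hr3b
    have hap := ap hA (a := (code c).1.1) (a' := a3.1) (a'' := (code c').1.1)
      (x := xs sl b j nm (run sl s g)) (x' := xe sl b j nm x3) (code c).1.2 a3.2 (code c').1.2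
      (fun p => by rw [← e1', ← hr2x, e2'']) (fun p => by
        have := hr4 p
        rw [← h7c] at this
        simp only at this
        rw [this, e3'])
    obtain ⟨ha3, ha5, hx⟩ := hap
    have htrue : ∀ p, Ext sl b j p → x3 p = run sl s g (ch sl b j p.1 p.2) := by
      intro p hp
      have := hx p
      unfold xe xs at this
      rw [if_pos hp, if_pos hp] at this
      exact hnm this
    have hbl : bst sl b j s x3 g b = blk sl s b j g := by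
      funext v
      exact (h5 X sl s b j x3 g htrue b).1 v v.2
    refine ⟨htrue, ?_, ?_⟩
    · apply code.injective
      apply Prod.ext
      · exact Subtype.ext ha5
      · rw [← e3a, ← h7a]
    · rw [hbl] at hf6
      exact hf6
  refine ⟨G, ?_, fun g c f c' f' => ⟨⟨?_, ?_⟩, ?_⟩⟩
  · rw [hGs]
    have e1 : Fintype.card (Fin R × F × {a // a ∈ A} × (Fin b × Bool → X)) =
        R * Fintype.card F * A.card * k ^ (2 * b) := by
      rw [Fintype.card_prod, Fintype.card_prod, Fintype.card_prod, Fintype.card_fin,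
        Fintype.card_coe, Fintype.card_fun, Fintype.card_prod, Fintype.card_fin,
        Fintype.card_bool, mul_comm b 2]
      ring
    have e2 : Fintype.card ((Fin R × F) × Reg b Q) = R * Fintype.card F * Q ^ (2 * b) := by
      rw [Fintype.card_prod, Fintype.card_prod, Fintype.card_fin, card_reg]
    have e3 : Fintype.card (Fin R × F) * Fintype.card (Reg b Q) =
        R * Fintype.card F * Q ^ (2 * b) := by
      rw [Fintype.card_prod, Fintype.card_fin, card_reg]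
    rw [e1, e2] at hG₂s
    rw [e3] at hG₁s hG₃s
    have e4 : R * Fintype.card F * A.card * k ^ (2 * b) * k ^ b =
        R * Fintype.card F * A.card * k ^ (3 * b) := by
      rw [mul_assoc, ← pow_add]
      congr 2
      ring
    rw [e4] at hG₂s
    rw [Fintype.card_prod]
    omega
  · intro hr
    obtain ⟨v₁, v₁', v₂, v₂', v₃, a1, a2, a3, a4, a5, a6⟩ := ((hG g (c, f) (c', f')).1).1 hr
    exact (key g c f c' f' v₁ v₁' v₂ v₂' v₃ a1 a2 a3 a4 a5 a6).2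
  · rintro ⟨rfl, hφ⟩
    rw [(hG g (c', f) (c', f')).1]
    have hltQ : ∀ p, (code c').1.1 p < Q := fun p => by
      have := hAq _ (code c').1.2 p
      omega
    obtain ⟨r2, hr2, hr2x⟩ := h6 X sl b j Q k nm hnmk (run sl s g)
      (fun p => ⟨(code c').1.1 p, hltQ p⟩) (fun p => by
      show (code c').1.1 p + k ≤ Q
      have := hAq _ (code c').1.2 p
      omega)
    set x : Fin b × Bool → X := fun p => run sl s g (ch sl b j p.1 p.2) with hx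
    have hxe : ∀ p, xe sl b j nm x p = xs sl b j nm (run sl s g) p := fun p => rfl
    have hbl : bst sl b j s x g b = blk sl s b j g := by
      funext v
      exact (h5 X sl s b j x g (fun p _ => rfl) b).1 v v.2
    refine ⟨(((code c').2, f), fun p => ⟨(code c').1.1 p, hltQ p⟩), (((code c').2, f), r2),
      ((code c').2, f, (code c').1, x),
      (((code c').2, f'), fun p => ⟨(code c').1.1 p + 2 * xe sl b j nm x p, hlt _ _ p⟩),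
      (((code c').2, f'), fun p => ⟨(code c').1.1 p, hltQ p⟩), ⟨rfl, fun p => rfl⟩, ?_,
      ⟨rfl, rfl, ?_⟩, ?_, ?_, ⟨rfl, fun p => rfl⟩⟩
    · rw [(hG₁ g _ _ _ _).1]
      exact ⟨rfl, hr2⟩
    · intro p
      rw [hr2x, hxe]
    · rw [(hG₂ g _ _).1]
      have hφ' : φ (blk sl s b j g) f = some f' := hφ
      simp only [hout]
      rw [hbl, hφ']
      rfl
    · rw [(hG₃ g _ _ _ _).1]
      refine ⟨rfl, ?_⟩
      exact (h7 X sl b j Q nm (run sl s g) _ _).2 (fun p => by rw [← hxe])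
  · refine (hG g (c, f) (c', f')).2 _ fun v₁ v₁' v₂ v₂' v₃ a1 a2 a3 a4 a5 a6 => ⟨?_, ?_, ?_⟩
    · exact (hG₁ g _ _ _ _).2
    · exact (hG₂ g _ _).2 (key g c f c' f' v₁ v₁' v₂ v₂' v₃ a1 a2 a3 a4 a5 a6).1
    · exact (hG₃ g _ _ _ _).2

end Pool.Agent.Lib.MP_9dcf40_lc.SU
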