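import Pool.Agent.Lib.MP_9dcf40_lc.TT.Idf
import Pool.Agent.Lib.MP_9dcf40_lc.TT.Que
import Pool.Agent.Lib.MP_9dcf40_lc.TT.Seq
import Pool.Agent.Lib.MP_9dcf40_lc.SU.Chain
import Pool.Agent.Lib.MP_9dcf40_lc.SU.BTrue
import Pool.Agent.Lib.MP_9dcf40_lc.SU.Blk
import Pool.Agent.Lib.MP_9dcf40_lc.SU.Arith
import Pool.Agent.Lib.MP_9dcf40_lc.SU.Step
import Pool.Agent.Lib.MP_9dcf40_lc.SU.Ind
import Pool.Agent.Lib.MP_9dcf40_lc.SU.Sph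
import Pool.Agent.Lib.MP_9dcf40_lc.SU.Num
import Pool.Agent.Lib.MP_9dcf40_lc.SU.Prog
import Pool.Agent.Lib.MP_9dcf40_lc.SU.End
import Pool.Agent.Lib.MP_9dcf40_lc.SU.Ord
import Pool.Agent.Lib.MP_9dcf40_lc.SU.ALow

/-!
# Assembly of the two-sided theorem (MP_9dcf40_lc)
-/

namespace Pool.Agent.Lib.MP_9dcf40_lc.SU

theorem step : S_Step := tStep TT.tIdf TT.tSeq (tChain TT.tIdf TT.tSeq)
  (tBlk TT.tIdf TT.tQue TT.tSeq tBTrue) tBTrue tAdd tSbt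

theorem up : S_End := tEnd (tInd step) tSph tNum tProg

theorem low : S_ALow := tALow tOrd

end Pool.Agent.Lib.MP_9dcf40_lc.SU
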