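import Pool.Agent.Lib.BP.Gen

/-!
# Straight-line programs over a binary operation (MP_9dcf40_lc): definitions
-/

namespace Pool.Agent.Lib.MP_9dcf40_lc.SU

open Pool.Agent.Lib.BP

variable {X : Type}

/-- The elements computed by the straight-line program `sl` with the operation `g`: the element
number `0` is `s`, and the step `i` computes the element number `i + 1`, the product of the elements
with the numbers `(sl i).1` and `(sl i).2` (numbers above `i` are replaced by `i`). -/
def run (sl : ℕ → ℕ × ℕ) (s : X) (g : X × X → X) : ℕ → X
  | 0 => s
  | i + 1 => g (run sl s g (min (sl i).1 i), run sl s g (min (sl i).2 i))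
termination_by n => n
decreasing_by all_goals omega

theorem run_zero (sl : ℕ → ℕ × ℕ) (s : X) (g : X × X → X) : run sl s g 0 = s := by
  rw [run]

theorem run_succ (sl : ℕ → ℕ × ℕ) (s : X) (g : X × X → X) (i : ℕ) :
    run sl s g (i + 1) = g (run sl s g (min (sl i).1 i), run sl s g (min (sl i).2 i)) := by
  rw [run]

/-- All elements are in the closure of `s` under `g`. -/
theorem run_gen (sl : ℕ → ℕ × ℕ) (s : X) (g : X × X → X) (i : ℕ) : Gen g s (run sl s g i) := by
  induction i using Nat.strong_induction_on with
  | _ i ih =>
    cases i with
    | zero => rw [run_zero]; exact .base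
    | succ i => rw [run_succ]; exact .mul _ _ (ih _ (by omega)) (ih _ (by omega))

end Pool.Agent.Lib.MP_9dcf40_lc.SU
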