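import Pool.Agent.Lib.MP_9dcf40_lc.SU.Defs
import Pool.Agent.Lib.MP_9dcf40_lc.TT.Spec
import Pool.Agent.Lib.BP.AMain

/-!
# Two-sided GenBP: small generative programs for every straight-line program (MP_9dcf40_lc; helper97's theorem (U))

THEOREM. For every `X`, `s ≠ t` and every straight-line program with `N` steps there is a sound generative
nondeterministic branching program with `≤ (k (√N + 1)) ^ (50 (√N + 1))` states, `k = |X|`, which accepts `g` iff the
last element of the straight-line program is `t`. (With the lower bound `2 ^ c` of `BP.alower`, whose inputs have a common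
straight-line program with `≤ 48 c² (log c + 4)` steps: the maximum over the programs with `N` steps is
`2 ^ (N ^ (1/2 ± o(1)))`.)

IDEA. Blocks of `b = √N + 1` steps. `V_j[Co, F, φ]`: from the content `(c, f)` exactly `(c, φ z f)` is reached, `z` = the
true elements computed in block `j`. The content `c` is coded as a point `a` of a 3-AP-free set `A` of a cube with one
coordinate for each pointer of the block. The recursive calls `V_i`, `i < j`, ADD the elements used by the pointers: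
`r = a + x`; guess `x'`, check `a' = r - x' ∈ A`, evaluate the block with `x'`, `r := a' + 2x'`; the recursive calls
`V_i`, `i < j`, subtract `2 x`: `a'' = a + x' - x`; check `a'' ∈ A`. As `a' + a'' = 2 a`: `x' = x`. So the stack costs
only a factor (number of points of the cube) / `|A|` = `poly (k b)` per level.

MODULES (`theorem tX`, hypotheses = other statements, given in the docstrings). The fragments `TT.Frag` and `S_Idf`,
`S_Que`, `S_Seq` are in `TT/Spec.lean`. All statements on numbers are over `ℕ`.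
-/

namespace Pool.Agent.Lib.MP_9dcf40_lc.SU

open Finset TT Pool.Agent.Lib.BP

section defs

variable {X : Type}

/-- The number of the element used by the pointer `d` of the step `j * b + v`. -/
def ch (sl : ℕ → ℕ × ℕ) (b j v : ℕ) (d : Bool) : ℕ :=
  min (if d then (sl (j * b + v)).2 else (sl (j * b + v)).1) (j * b + v)

/-- The pointers of a block: pairs of a step of the block and a side. `Ext`: the pointer uses an element computed in an
earlier block. -/
abbrev Ext (sl : ℕ → ℕ × ℕ) (b j : ℕ) (p : Fin b × Bool) : Prop :=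
  1 ≤ ch sl b j p.1 p.2 ∧ ch sl b j p.1 p.2 ≤ j * b

/-- The pairs of true elements. -/
def Tru (sl : ℕ → ℕ × ℕ) (s : X) (g : X × X → X) (e : X × X) : Prop :=
  ∃ i i', e = (run sl s g i, run sl s g i')

/-- There is a fragment with at most `n` states which leads from the content `(c, f)` exactly to `(c, ρ g f)`, and all
whose complete computations ask only true pairs. -/
def Has (sl : ℕ → ℕ × ℕ) (s : X) (Co F : Type) (ρ : (X × X → X) → F → Option F) (n : ℕ) : Prop :=
  ∃ G : Frag (X × X) X (Co × F) (Co × F), G.size ≤ n ∧ ∀ g c f c' f',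
    (G.Reach g (c, f) (c', f') ↔ c' = c ∧ ρ g f = some f') ∧ G.Ok g (Tru sl s g) (c, f) (c', f')

/-- The true elements computed in block `j`. -/
def blk (sl : ℕ → ℕ × ℕ) (s : X) (b j : ℕ) (g : X × X → X) : Fin b → X :=
  fun v => run sl s g (j * b + v + 1)

/-- Composition of the first `m` partial functions `ψ 0, …, ψ (m - 1)` (`ψ 0` first). -/
def cmp {F : Type} (ψ : ℕ → F → Option F) : ℕ → F → Option F
  | 0 => fun f => some f
  | m + 1 => fun f => (cmp ψ m f).bind (ψ m)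

/-- The element at the pointer `(v, d)`, if the elements at the external pointers are `x` and `y` is the list of the
elements of the block. -/
def pn (sl : ℕ → ℕ × ℕ) (b j : ℕ) (s : X) (x : Fin b × Bool → X) (y : Fin b → X) (v : Fin b) (d : Bool) : X :=
  if ch sl b j v d = 0 then s else if ch sl b j v d ≤ j * b then x (v, d) else
    if h : ch sl b j v d - j * b - 1 < b then y ⟨_, h⟩ else s

/-- Evaluation of the block `j`, if the elements at the external pointers are `x`: the list of the elements of the block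
after `m` steps (`s` at the places which are not yet evaluated). -/
def bst (sl : ℕ → ℕ × ℕ) (b j : ℕ) (s : X) (x : Fin b × Bool → X) (g : X × X → X) : ℕ → Fin b → X
  | 0 => fun _ => s
  | m + 1 => fun v => if (v : ℕ) = m then
      g (pn sl b j s x (bst sl b j s x g m) v false, pn sl b j s x (bst sl b j s x g m) v true)
      else bst sl b j s x g m v

/-- The registers. -/
abbrev Reg (b Q : ℕ) : Type := Fin b × Bool → Fin Q

/-- The number which block `i`, with the elements `y`, contributes to the pointer `p` of block `j`. -/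
def ctr (sl : ℕ → ℕ × ℕ) (b j : ℕ) (nm : X → ℕ) (i : ℕ) (y : Fin b → X) (p : Fin b × Bool) : ℕ :=
  if Ext sl b j p ∧ (ch sl b j p.1 p.2 - 1) / b = i then
    nm (y ⟨(ch sl b j p.1 p.2 - 1) % b, Nat.mod_lt _ (lt_of_le_of_lt (Nat.zero_le _) p.1.2)⟩) else 0

/-- Add the contributions of block `i`. -/
def add (sl : ℕ → ℕ × ℕ) (b j : ℕ) (nm : X → ℕ) (Q i : ℕ) (y : Fin b → X) (r : Reg b Q) : Option (Reg b Q) :=
  if h : ∀ p, (r p : ℕ) + ctr sl b j nm i y p < Q then
    some (fun p => ⟨(r p : ℕ) + ctr sl b j nm i y p, h p⟩) else none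

/-- Subtract twice the contributions of block `i`. -/
def sbt (sl : ℕ → ℕ × ℕ) (b j : ℕ) (nm : X → ℕ) (Q i : ℕ) (y : Fin b → X) (r : Reg b Q) : Option (Reg b Q) :=
  if ∀ p, 2 * ctr sl b j nm i y p ≤ (r p : ℕ) then
    some (fun p => ⟨(r p : ℕ) - 2 * ctr sl b j nm i y p, lt_of_le_of_lt (Nat.sub_le _ _) (r p).2⟩) else none

/-- All contributions to the pointer `p` of block `j`, if the elements are `e`. -/
def xs (sl : ℕ → ℕ × ℕ) (b j : ℕ) (nm : X → ℕ) (e : ℕ → X) (p : Fin b × Bool) : ℕ :=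
  if Ext sl b j p then nm (e (ch sl b j p.1 p.2)) else 0

end defs

/-- CHAIN. `tChain (h1 : S_Idf) (h2 : S_Seq) : S_Chain`. PROOF. Induction on `j`. `j = 0`: `S_Idf` with `U = Co × F`.
Step: `S_Seq` with the fragment for `j` and the fragment of `ψ j`, `L = (· = ·)`. -/
def S_Chain : Prop := ∀ (X : Type) (sl : ℕ → ℕ × ℕ) (s : X) (Co F : Type) [Fintype Co] [Fintype F]
  (ψ : ℕ → (X × X → X) → F → Option F) (n : ℕ → ℕ) (j : ℕ),
  (∀ i < j, Has sl s Co F (ψ i) (n i)) →
  Has sl s Co F (fun g => cmp (fun i => ψ i g) j) (Fintype.card Co * Fintype.card F + ∑ i ∈ range j, n i)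

/-- BTRUE. `tBTrue : S_BTrue`. If `x` is true, then the evaluation of the block gives the true elements. PROOF. Induction
on `m` for the first part; for `v < m + 1`, `v ≠ m` nothing changes; for `v = m`: both pointers are true: `ch = 0`: `s =
run 0`; external: hypothesis; otherwise `j b < ch ≤ j b + m`, so `v' = ch - j b - 1 < m` and the induction gives
`run (j b + v' + 1) = run ch`. And `run (j b + m + 1) = g (run (ch false), run (ch true))` (`run_succ`). The second part is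
shown on the way. -/
def S_BTrue : Prop := ∀ (X : Type) (sl : ℕ → ℕ × ℕ) (s : X) (b j : ℕ) (x : Fin b × Bool → X) (g : X × X → X),
  (∀ p, Ext sl b j p → x p = run sl s g (ch sl b j p.1 p.2)) → ∀ m,
  (∀ v : Fin b, (v : ℕ) < m → bst sl b j s x g m v = run sl s g (j * b + v + 1)) ∧
  (∀ (v : Fin b) (d : Bool), (v : ℕ) = m →
    pn sl b j s x (bst sl b j s x g m) v d = run sl s g (ch sl b j v d))

/-- BLK. `tBlk (h1 : S_Idf) (h2 : S_Que) (h3 : S_Seq) (h4 : S_BTrue) : S_Blk`. The evaluation of a block. PROOF. `Y = Fin b →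
X`, `X` is nonempty (`s`). By induction on `m ≤ b` a fragment with entries `U`, exits `U × Y`, which reaches from `u`
exactly `(u, bst (x u) g m)`, with `≤ |U| + (2 m + 1) |U| k^b` states, `Ok` from `u` if `x u` is true. `m = 0`: `S_Seq` with
`S_Idf` for `U` and `S_Idf` for `U × Y`, `L u (u', y) = (u' = u ∧ y = fun _ => s)`. Step: `S_Seq` (`L = (· = ·)`) with
`S_Que`, `U × Y` to `U × Y`, `ask (u, y) = (pn (x u) y ⟨m, _⟩ false, pn (x u) y ⟨m, _⟩ true)`, `out (u, y) z =
some (u, fun v => if v = m then z else y v)`; the asked pair is true by the second part of `S_BTrue` (`y = bst (x u) g m` is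
known). At the end `S_Seq` with `S_Idf` for `W`, `L (u, y) w = (out u y = some w)`. Total `|U| + |W| + (2b + 1) |U| k^b`. -/
def S_Blk : Prop := ∀ (X : Type) [Fintype X] (sl : ℕ → ℕ × ℕ) (s : X) (b j : ℕ) (U W : Type) [Fintype U] [Fintype W]
  (x : U → Fin b × Bool → X) (out : U → (Fin b → X) → Option W),
  ∃ G : Frag (X × X) X U W,
  G.size ≤ (2 * b + 2) * (Fintype.card U * Fintype.card X ^ b) + Fintype.card W ∧ ∀ g u w,
  (G.Reach g u w ↔ out u (bst sl b j s (x u) g b) = some w) ∧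
  ((∀ p, Ext sl b j p → x u p = run sl s g (ch sl b j p.1 p.2)) → G.Ok g (Tru sl s g) u w)

/-- ADD. `tAdd : S_Add`. PROOF. Induction on `m ≤ j`: `cmp .. m r = some r_m`, `r_m p = r p + (if Ext p and (ch p - 1) / b <
m then nm (e (ch p)) else 0)`: `ctr i (fun v => e (i b + v + 1)) p = nm (e (ch p))` if `Ext p` and `(ch p - 1) / b = i`, as
`i b + (ch p - 1) % b + 1 = ch p`. All is `< r p + K ≤ Q`. For `m = j`: `Ext p` gives `ch p - 1 < j b`, so `(ch p - 1) / b <
j`. -/
def S_Add : Prop := ∀ (X : Type) (sl : ℕ → ℕ × ℕ) (b j Q K : ℕ) (nm : X → ℕ), (∀ z, nm z < K) →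
  ∀ (e : ℕ → X) (r : Reg b Q), (∀ p, (r p : ℕ) + K ≤ Q) → ∃ r' : Reg b Q,
  cmp (fun i => add sl b j nm Q i (fun v => e (i * b + v + 1))) j r = some r' ∧
  ∀ p, (r' p : ℕ) = r p + xs sl b j nm e p

/-- SBT. `tSbt : S_Sbt`. PROOF. As `S_Add`: by induction on `m ≤ j`: `cmp .. m r = some r'` iff for all `p`: `r p = r' p + 2 *
(if Ext p and (ch p - 1) / b < m then nm (e (ch p)) else 0)`. -/
def S_Sbt : Prop := ∀ (X : Type) (sl : ℕ → ℕ × ℕ) (b j Q : ℕ) (nm : X → ℕ) (e : ℕ → X) (r r' : Reg b Q),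
  cmp (fun i => sbt sl b j nm Q i (fun v => e (i * b + v + 1))) j r = some r' ↔
  ∀ p, (r p : ℕ) = r' p + 2 * xs sl b j nm e p

/-- STEP. `tStep (h1 : S_Idf) (h2 : S_Seq) (h3 : S_Chain) (h4 : S_Blk) (h5 : S_BTrue) (h6 : S_Add) (h7 : S_Sbt) : S_Step`.
PROOF. `k = |X|`, `Q = q + 2k`, `Reg = Reg b Q`. `code : Co → A × Fin R` injective. Chain of fragments by `S_Seq`
(`x'e p := if Ext p then nm (x' p) else 0`, so `x'e = xs` as soon as `x' p = run (ch p)` at the external `p`):
`IDF (Co × F)` → [`code c = (a, ρ)`, `r = a`] → `G₁`, content `(ρ, f), r`: `S_Chain` with `add .. i` and `V_i`, `i < j`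
→ [guess: `r = a' + x'e`, `a' ∈ A`] → `G₂`: `S_Blk` with `U = Fin R × F × A × (Fin b × Bool → X)`, `W = (Fin R × F) × Reg`,
`out (ρ, f, a', x') y = (φ y f).map (fun f' => ((ρ, f'), a' + 2 x'e))` (`< q + 2k`) → [`=`] → `G₃`: `S_Chain` with
`sbt .. i` → [`code c = (r, ρ)`] → `IDF (Co × F)`.
REACH from `(c, f)`, `code c = (a, ρ)`: after `G₁` `r = a + xs e`, `e = run sl s g` (`S_Add` with `K = k`); after `G₂`
`r = a' + 2 x'e`, `a' + x'e = a + xs`; after `G₃` `r = a''`, `a' + 2 x'e = a'' + 2 xs` (`S_Sbt`), `a'' ∈ A`. So `a' + a'' =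
a + a`, hence `a' = a`, `x'e = xs`, `x' p = run (ch p)` at the external `p` (`nm` injective), so the asked pairs are true
(`S_Blk`) and `bst .. b = blk` (`S_BTrue`, `m = b`), `a'' = a`, the exit has the content `c`, `φ (blk) f`. Conversely, this
computation exists (`x' p = run (ch p)` for all `p`). -/
def S_Step : Prop := ∀ (X : Type) [Fintype X] (sl : ℕ → ℕ × ℕ) (s : X) (b j q R : ℕ) (nm : X → ℕ)
  (A : Finset (Fin b × Bool → ℕ)) (Co F : Type) [Fintype Co] [Fintype F] (φ : (Fin b → X) → F → Option F) (n : ℕ → ℕ),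
  nm.Injective → (∀ z, nm z < Fintype.card X) → (∀ a ∈ A, ∀ p, a p < q) →
  ThreeAPFree (A : Set (Fin b × Bool → ℕ)) → Fintype.card Co ≤ R * A.card →
  (∀ i < j, ∀ ψ : (Fin b → X) → Reg b (q + 2 * Fintype.card X) → Option (Reg b (q + 2 * Fintype.card X)),
    Has sl s (Fin R × F) (Reg b (q + 2 * Fintype.card X)) (fun g => ψ (blk sl s b i g)) (n i)) →
  Has sl s Co F (fun g => φ (blk sl s b j g))
    (2 * (Fintype.card Co * Fintype.card F) + 3 * (R * Fintype.card F * (q + 2 * Fintype.card X) ^ (2 * b)) +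
      (2 * b + 2) * (R * Fintype.card F * A.card * Fintype.card X ^ (3 * b)) + 2 * ∑ i ∈ range j, n i)

/-- IND. `tInd (h : S_Step) : S_Ind`. The size. PROOF. Strong induction on `j`, for all `Co, F, φ`. `W = Q^(2b) ≤ B a`, `a =
|A|`, `c = |Co|`, `f = |F| ≥ W`; `nm z = Fintype.equivFin X z`. `R = c / a + 1`: `c ≤ R a ≤ c + a`. `n i = (5B + E) (4B+1)^i (W
(R f + a))`, `E = (2b+2) k^(3b)`. `W (R f + a) ≤ 2 B f (c + a)`, as `R W ≤ B (c + a)`, `W a ≤ f a`, `B ≥ 1` (`W ≥ 1`, as `|X| ≥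
1`). So the size of `S_Step` is `≤ (2 + 3B + E) f (c+a) + 4B (5B + E) Σ_{i<j} (4B+1)^i f (c+a) = (2 + 3B + E) f (c+a) +
(5B + E) ((4B+1)^j - 1) f (c+a)`. -/
def S_Ind : Prop := ∀ (X : Type) [Fintype X] (sl : ℕ → ℕ × ℕ) (s : X) (b q B : ℕ)
  (A : Finset (Fin b × Bool → ℕ)), A.Nonempty → (∀ a ∈ A, ∀ p, a p < q) →
  ThreeAPFree (A : Set (Fin b × Bool → ℕ)) → (q + 2 * Fintype.card X) ^ (2 * b) ≤ B * A.card →
  ∀ (j : ℕ) (Co F : Type) [Fintype Co] [Fintype F], (q + 2 * Fintype.card X) ^ (2 * b) ≤ Fintype.card F →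
  ∀ φ : (Fin b → X) → F → Option F, Has sl s Co F (fun g => φ (blk sl s b j g))
    ((5 * B + (2 * b + 2) * Fintype.card X ^ (3 * b)) * (4 * B + 1) ^ j *
      (Fintype.card F * (Fintype.card Co + A.card)))

/-- SPH. `tSph : S_Sph`. PROOF. `Behrend.exists_large_sphere_aux`, `Behrend.threeAPFree_sphere`,
`Behrend.sphere_subset_box`, with `n = |P|`, `P ≃ Fin n`; `A` is not empty as `q ^ n > 0`. -/
def S_Sph : Prop := ∀ (P : Type) [Fintype P] (q : ℕ), 1 ≤ q → ∃ A : Finset (P → ℕ), A.Nonempty ∧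
  (∀ a ∈ A, ∀ p, a p < q) ∧ ThreeAPFree (A : Set (P → ℕ)) ∧
  q ^ Fintype.card P ≤ (Fintype.card P * q ^ 2 + 1) * A.card

/-- NUM. `tNum : S_Num`. PROOF. (1) `q + 2k = 2k (2b + 1)`, `q = 2k (2b)`, and `(2b+1)^(2b) ≤ 3 (2b)^(2b)` as `(1 + 1/D)^D ≤
exp 1 < 3`. (2) `B = 3 (32 k² b³ + 1) ≤ 99 k² b³`; `5B ≤ 512 k² b³`; `2b + 2 ≤ 4b`; `4B + 1 ≤ 512 k² b³ ≤ k^9 k² b³`;
`q + 2k ≤ 6 k b`, `6^4 ≤ 2^11 ≤ k^11`; `2 (5B + (2b+2) k^(3b)) ≤ 2^11 b³ k^(3b+2) ≤ k^(3b + 13) b³`. Product `≤ k^(13 + 3b + 11b +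
15b) b^(3 + 3b + 4b) ≤ (k b)^(50 b)`. -/
def S_Num : Prop := ∀ k b q B : ℕ, 2 ≤ k → 1 ≤ b → q = 4 * k * b → B = 3 * (2 * b * q ^ 2 + 1) →
  (q + 2 * k) ^ (2 * b) ≤ 3 * q ^ (2 * b) ∧
  2 * ((5 * B + (2 * b + 2) * k ^ (3 * b)) * (4 * B + 1) ^ b * ((q + 2 * k) ^ (2 * b)) ^ 2) ≤
    (k * b) ^ (50 * b)

/-- PROG. `tProg : S_Prog`. A fragment with an entry and an exit as a program. PROOF. `Q, fin, query, next` of `G`, `start =
ent u`, `acc = {ext w}`; `BP.NBP.Comp` and `Frag.Comp` are the same (two inductions). -/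
def S_Prog : Prop := ∀ (X U W : Type) (G : Frag (X × X) X U W) (u : U) (w : W), ∃ P : NBP (X × X) X,
  P.size = G.size ∧ ∀ g, (P.Accepts g ↔ G.Reach g u w) ∧
  ∀ T, G.Ok g T u w → ∀ l, ∀ q ∈ P.acc, P.Comp g P.start l q → ∀ p ∈ l, ∀ e, P.query p = some e → T e

/-- END. `tEnd (h1 : S_Ind) (h2 : S_Sph) (h3 : S_Num) (h4 : S_Prog) : S_End`. PROOF. `k ≥ 2` as `s ≠ t`. `N = 0`: a program with
one state and without accepting states (`run 0 = s ≠ t`). `N ≥ 1`: `b = √N + 1`, so `N ≤ b²`; `j = (N-1)/b < b`, `v =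
(N-1)%b`: `j b + v + 1 = N`. `q = 4 k b`, `A` from `S_Sph` with `P = Fin b × Bool`, `|P| = 2b`; `Q^(2b) ≤ 3 q^(2b) ≤ B |A|`. `|A| ≤
q^(2b) ≤ Q^(2b) = W` (`A ⊆ Fintype.piFinset fun _ => range q`). `S_Ind` with `Co = Unit`, `F = Reg b Q`, `φ z r = if z v = t then
some r else none`: size `≤ (5B + E) (4B+1)^j (W (1 + |A|)) ≤ 2 (5B + E) (4B+1)^b W²`; `S_Prog` with `u = w = ((), 0)`. Accepts
iff `run N = t`; then `Gen g s t` by `run_gen`. `AlmostGen`: `E = ∅`, true pairs are pairs of generated elements. -/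
def S_End : Prop := ∀ (X : Type) [Fintype X] (s t : X), s ≠ t → ∀ (N : ℕ) (sl : ℕ → ℕ × ℕ),
  ∃ P : NBP (X × X) X, Sound P s t ∧ AlmostGen P s 0 ∧ (∀ g, P.Accepts g ↔ run sl s g N = t) ∧
    P.size ≤ (Fintype.card X * (Nat.sqrt N + 1)) ^ (50 * (Nat.sqrt N + 1))

/-- ORD. `tOrd : S_Ord`. The butterfly has one straight-line program for all inputs. PROOF. The node of level `i` and position
`x` gets the number `i 2^b + enum b x + 1`; `sl m`, `m < (R+1) 2^b`: the numbers of the children (`fch`) of the node of level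
`m / 2^b` and position `(enum b).symm (m % 2^b)` (`none` has the number `0`). They are `≤ m`: level `0`: children `none` and
`pred`, which is `none` or the node before in level `0`; level `i + 1`: two nodes of level `i`. By strong induction on the
number, with `Dag.inp_ch`, `fch_zero`, `fch_succ`: `run .. (number of v) = name a (some v)`. See `BP.gen_all` in
`BP/Gens.lean` for the same induction. -/
def S_Ord : Prop := ∀ (α K : Type) (b R : ℕ) (nm : Option (Nd b R × K) → α) (h : Function.Injective nm),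
  ∃ sl : ℕ → ℕ × ℕ, ∀ v : Nd b R, ∃ N ≤ (R + 1) * 2 ^ b, ∀ a : Nd b R → K,
    run sl (nm none) ((flyDag b R nm h).inp a) N = (flyDag b R nm h).name a (some v)

/-- ALOW. `tALow (h : S_Ord) : S_ALow`. PROOF. Copy the proof of `BP.alower` (`BP/AMain.lean`); the inputs are `G.inp a`,
`a (root b τ) = 0`, and `G.name a (some (root b τ)) = t`, so `S_Ord` with `R = (τ + 1) b`, `v = root b τ` gives the
straight-line program; `N ≤ ((τ + 1) b + 1) 2^b ≤ 3 (τ b) (16 c)` as there (`h1`, `h2`), `b ≤ log c + 4`. -/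
def S_ALow : Prop := ∀ (X : Type) [Fintype X] (s t : X), s ≠ t → ∀ (c τ : ℕ), 1 ≤ τ → τ ≤ c →
    2000000000 * (c * τ * (Nat.log 2 c + 4) ^ 3) ≤ Fintype.card X →
    ∃ (N : ℕ) (sl : ℕ → ℕ × ℕ) (ι : Type) (_ : Fintype ι) (g : ι → X × X → X),
      N ≤ 48 * (c * τ * (Nat.log 2 c + 4)) ∧ Nonempty ι ∧ (∀ i, run sl s (g i) N = t) ∧
      ∀ (P : NBP (X × X) X) (r : ℕ), 2 * r ≤ c → Sound P s t → AlmostGen P s r →
        Fintype.card ι ≤ 2 ^ c * Nat.card {i // ∃ l, ∃ q ∈ P.acc,
          P.Comp (g i) P.start l q ∧ (l.length < 2 ^ τ ∨ τ = c)} → 2 ^ c ≤ P.size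

end Pool.Agent.Lib.MP_9dcf40_lc.SU
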