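import Pool.Agent.Lib.MP_9dcf40_lc.SU.Spec

/-!
# MP_9dcf40_lc, two-sided GenBP: a large set without three-term progressions in a cube
-/

set_option autoImplicit false

namespace Pool.Agent.Lib.MP_9dcf40_lc.SU

open TT Finset Pool.Agent.Lib.BP

theorem tSph : S_Sph := by
  intro P _ q hq
  classical
  obtain ⟨n, hn⟩ : ∃ n, n = Fintype.card P := ⟨_, rfl⟩
  let e : P ≃ Fin n := Fintype.equivFinOfCardEq hn.symm
  obtain ⟨k, _, hk⟩ := Behrend.exists_large_sphere_aux n q
  have hinj : Function.Injective (fun (f : Fin n → ℕ) (p : P) => f (e p)) := by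
    intro f g hfg
    funext i
    have h1 := congrFun hfg (e.symm i)
    simpa using h1
  let ι : (Fin n → ℕ) ↪ (P → ℕ) := ⟨fun f p => f (e p), hinj⟩
  have hcard : ((Behrend.sphere n q k).map ι).card = (Behrend.sphere n q k).card :=
    Finset.card_map ι
  have hle : q ^ n ≤ (n * q ^ 2 + 1) * (Behrend.sphere n q k).card := by
    have h1 : ((q ^ n : ℕ) : ℝ) ≤
        (((n * (q - 1) ^ 2 + 1) * (Behrend.sphere n q k).card : ℕ) : ℝ) := by
      have h2 : (0 : ℝ) < ((n * (q - 1) ^ 2 : ℕ) : ℝ) + 1 := by positivity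
      have h3 := (div_le_iff₀ h2).1 hk
      refine h3.trans (le_of_eq ?_)
      rw [Nat.cast_mul ((n * (q - 1) ^ 2 + 1)), Nat.cast_add, Nat.cast_one]
      ring
    have h4 : q ^ n ≤ (n * (q - 1) ^ 2 + 1) * (Behrend.sphere n q k).card := by
      exact_mod_cast h1
    refine h4.trans (Nat.mul_le_mul_right _ ?_)
    have h5 : (q - 1) ^ 2 ≤ q ^ 2 := Nat.pow_le_pow_left (Nat.sub_le q 1) 2
    have h6 := Nat.mul_le_mul_left n h5
    omega
  refine ⟨(Behrend.sphere n q k).map ι, ?_, ?_, ?_, ?_⟩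
  · rw [Finset.map_nonempty, ← Finset.card_pos]
    by_contra h0
    have h1 : (Behrend.sphere n q k).card = 0 := by omega
    rw [h1, Nat.mul_zero] at hle
    have h2 : 0 < q ^ n := pow_pos (by omega) n
    omega
  · intro a ha p
    obtain ⟨f, hf, rfl⟩ := Finset.mem_map.1 ha
    exact Behrend.mem_box.1 (Behrend.sphere_subset_box hf) (e p)
  · intro a ha b hb c hc habc
    obtain ⟨f, hf, rfl⟩ := Finset.mem_map.1 (Finset.mem_coe.1 ha)
    obtain ⟨g, hg, rfl⟩ := Finset.mem_map.1 (Finset.mem_coe.1 hb)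
    obtain ⟨h, hh, rfl⟩ := Finset.mem_map.1 (Finset.mem_coe.1 hc)
    have h1 : f + h = g + g := by
      apply hinj
      exact habc
    rw [Behrend.threeAPFree_sphere (Finset.mem_coe.2 hf) (Finset.mem_coe.2 hg)
      (Finset.mem_coe.2 hh) h1]
  · rw [hcard, ← hn]
    exact hle

end Pool.Agent.Lib.MP_9dcf40_lc.SU
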